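import Pool.Agent.TropBN.Chain

/-!
# Moving one chip along each edge
-/

namespace Pool.Agent.TropBN

namespace MetricGraph

variable {Γ : MetricGraph}

namespace Mv

lemma remOn_vert (e : Γ.E) (v : Γ.V) : Γ.remOn e (Γ.vert v) = 0 := rfl

lemma remOn_inner (e e' : Γ.E) (t : Set.Ioo (0 : ℝ) (Γ.len e')) :
    Γ.remOn e (Γ.inner e' t) = if e' = e then Γ.len e' - t else 0 := rfl

lemma isBoundary_iff_dv {s : Γ.E → ℤ} {D : Γ.Div} :
    Γ.IsBoundary s D ↔ ∀ v, D (Γ.vert v) =
      ∑ e, (if Γ.tgt e = v then s e - Γ.degOn e D else 0) -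
      ∑ e, (if Γ.src e = v then s e else 0) := Iff.rfl

lemma sum_single_ite (e : Γ.E) (P : Γ.E → Prop) [DecidablePred P] :
    (∑ e', if P e' then (Pi.single e (1 : ℤ) : Γ.E → ℤ) e' else 0) = if P e then 1 else 0 := by
  rw [Finset.sum_eq_single e]
  · simp
  · intro b _ hb
    rw [Pi.single_eq_of_ne hb]
    simp
  · intro h
    exact absurd (Finset.mem_univ e) h

lemma vert_inj {u v : Γ.V} : Γ.vert u = Γ.vert v ↔ u = v := by
  constructor
  · intro h
    exact Sum.inl_injective h
  · rintro rfl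
    rfl

lemma vert_ne_inner {u : Γ.V} {e : Γ.E} {t : Set.Ioo (0 : ℝ) (Γ.len e)} :
    Γ.inner e t ≠ Γ.vert u := by
  intro h
  exact absurd h Sum.inr_ne_inl

open Finsupp in
/-- The chain from the start of an edge to a point of it. -/
lemma exists_chain (e : Γ.E) {t : ℝ} (h0 : 0 ≤ t) (h1 : t ≤ Γ.len e) : ∃ s : Γ.E → ℤ,
    Γ.IsBoundary s (single (Γ.pt e t) 1 - single (Γ.vert (Γ.src e)) 1) ∧
      Γ.integral s (single (Γ.pt e t) 1 - single (Γ.vert (Γ.src e)) 1) = Pi.single e t := by
  classical
  rcases h0.eq_or_lt with h0' | h0'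
  · subst h0'
    refine ⟨0, ?_, ?_⟩
    · have : Γ.pt e 0 = Γ.vert (Γ.src e) := by simp [pt]
      rw [this, sub_self]
      exact isBoundary_zero
    · have : Γ.pt e 0 = Γ.vert (Γ.src e) := by simp [pt]
      rw [this, sub_self]
      funext e'
      simp [integral, momOn_zero]
  · rcases h1.eq_or_lt with h1' | h1'
    · subst h1'
      have hp : Γ.pt e (Γ.len e) = Γ.vert (Γ.tgt e) := by
        unfold pt
        rw [dif_neg (not_le.2 h0'), dif_pos le_rfl]
      rw [hp]
      refine ⟨Pi.single e 1, ?_, ?_⟩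
      · intro v
        simp only [degOn_sub, degOn_single, C1.onEdge_vert, mul_zero, sub_zero]
        rw [sum_single_ite, sum_single_ite]
        rw [Finsupp.sub_apply, Finsupp.single_apply, Finsupp.single_apply]
        simp only [vert_inj]
      · funext e'
        simp only [integral, momOn_sub, momOn_single, remOn_vert, mul_zero, sub_zero]
        by_cases he : e' = e
        · subst he
          simp
        · rw [Pi.single_eq_of_ne he, Pi.single_eq_of_ne he]
          simp
    · have hp : Γ.pt e t = Γ.inner e ⟨t, h0', h1'⟩ := by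
        unfold pt
        rw [dif_neg (not_le.2 h0'), dif_neg (not_le.2 h1')]
      rw [hp]
      refine ⟨Pi.single e 1, ?_, ?_⟩
      · intro v
        simp only [degOn_sub, degOn_single, C1.onEdge_vert, mul_zero, sub_zero, C1.onEdge_inner,
          one_mul]
        rw [sum_single_ite]
        rw [Finsupp.sub_apply, Finsupp.single_apply, Finsupp.single_apply]
        rw [if_neg vert_ne_inner]
        simp only [vert_inj]
        rw [Finset.sum_eq_zero]
        intro e' _
        split_ifs with h2 h3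
        · subst h3
          simp
        · rw [Pi.single_eq_of_ne (Ne.symm h3)]
          simp
        · rfl
      · funext e'
        simp only [integral, momOn_sub, momOn_single, remOn_vert, mul_zero, sub_zero,
          remOn_inner]
        by_cases he : e' = e
        · subst he
          simp
        · rw [Pi.single_eq_of_ne he, Pi.single_eq_of_ne he, if_neg (Ne.symm he)]
          simp

end Mv

open Finsupp in
/-- Moving a chip along an edge. -/
theorem isBoundary_move (e : Γ.E) {x y : ℝ} (hx : 0 ≤ x) (hx' : x ≤ Γ.len e) (hy : 0 ≤ y)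
    (hy' : y ≤ Γ.len e) : ∃ s : Γ.E → ℤ,
      Γ.IsBoundary s (single (Γ.pt e y) 1 - single (Γ.pt e x) 1) ∧
      Γ.integral s (single (Γ.pt e y) 1 - single (Γ.pt e x) 1) = Pi.single e (y - x) := by
  obtain ⟨s, h1, h2⟩ := Mv.exists_chain e hx hx'
  obtain ⟨s', h1', h2'⟩ := Mv.exists_chain e hy hy'
  have hD : (single (Γ.pt e y) 1 - single (Γ.pt e x) 1 : Γ.Div) =
      (single (Γ.pt e y) 1 - single (Γ.vert (Γ.src e)) 1) -
        (single (Γ.pt e x) 1 - single (Γ.vert (Γ.src e)) 1) := by abel
  refine ⟨s' - s, ?_, ?_⟩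
  · rw [hD]
    exact h1'.sub h1
  · rw [hD, integral_sub, h2, h2', Pi.single_sub]

open Finsupp in
/-- Moving one chip along each edge, according to a potential. -/
theorem moves_principal {x y : Γ.E → ℝ} (hx : ∀ e, 0 ≤ x e) (hx' : ∀ e, x e ≤ Γ.len e)
    (hy : ∀ e, 0 ≤ y e) (hy' : ∀ e, y e ≤ Γ.len e) (F : Γ.V → ℝ)
    (hF : ∀ e, F (Γ.src e) - F (Γ.tgt e) = y e - x e) :
    ∃ f : Γ.Point → ℝ,
      Γ.IsDivOf f (∑ e, (single (Γ.pt e (y e)) 1 - single (Γ.pt e (x e)) 1)) := by
  classical
  choose s h1 h2 using fun e => isBoundary_move e (hx e) (hx' e) (hy e) (hy' e)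
  have key : ∀ S : Finset Γ.E, Γ.IsBoundary (∑ e ∈ S, s e)
      (∑ e ∈ S, (single (Γ.pt e (y e)) 1 - single (Γ.pt e (x e)) 1)) ∧
      Γ.integral (∑ e ∈ S, s e) (∑ e ∈ S, (single (Γ.pt e (y e)) 1 - single (Γ.pt e (x e)) 1)) =
        ∑ e ∈ S, Pi.single e (y e - x e) := by
    intro S
    induction S using Finset.induction_on with
    | empty =>
      refine ⟨?_, ?_⟩
      · simpa using isBoundary_zero
      · funext e'
        simp [integral, momOn_zero]
    | insert a S ha ih =>
      rw [Finset.sum_insert ha, Finset.sum_insert ha, Finset.sum_insert ha]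
      refine ⟨(h1 a).add ih.1, ?_⟩
      rw [integral_add, h2 a, ih.2]
  obtain ⟨k1, k2⟩ := key Finset.univ
  obtain ⟨f, hf, -⟩ := exists_isDivOf k1 (F := F) (by
    intro e
    rw [k2, Finset.sum_apply, hF e]
    rw [Finset.sum_eq_single e]
    · simp
    · intro b _ hb
      rw [Pi.single_eq_of_ne (Ne.symm hb)]
    · intro h
      exact absurd (Finset.mem_univ e) h)
  exact ⟨f, hf⟩

end MetricGraph

end Pool.Agent.TropBN
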