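import Pool.Agent.TropBN.Pic
import Pool.Agent.TropBN.Moves

/-!
# The Abel-Jacobi map is surjective
-/

namespace Pool.Agent.TropBN

namespace MetricGraph

variable (Γ : MetricGraph)

/-- The vectors of the integrals of integral chains. -/
def reach : AddSubgroup (Γ.E → ℝ) where
  carrier := {η | ∃ (s : Γ.E → ℤ) (D : Γ.Div), Γ.IsBoundary s D ∧ Γ.integral s D = η}
  zero_mem' := ⟨0, 0, isBoundary_zero, by funext e; simp [integral, momOn_zero]⟩
  add_mem' := by
    rintro a b ⟨s, D, h, rfl⟩ ⟨s', D', h', rfl⟩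
    exact ⟨s + s', D + D', h.add h', integral_add _ _ _ _⟩
  neg_mem' := by
    rintro a ⟨s, D, h, rfl⟩
    exact ⟨-s, -D, h.neg, integral_neg _ _⟩

lemma single_mem_reach (e : Γ.E) (r : ℝ) : Pi.single e r ∈ Γ.reach := by
  have hlen := Γ.len_pos e
  have h1 : ∀ r : ℝ, 0 ≤ r → r ≤ Γ.len e → Pi.single e r ∈ Γ.reach := by
    intro r h0 h1
    obtain ⟨s, hs, hi⟩ := isBoundary_move e le_rfl hlen.le h0 h1
    refine ⟨s, _, hs, ?_⟩
    rw [hi, sub_zero]
  have h2 : (Pi.single e r : Γ.E → ℝ) =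
      ⌊r / Γ.len e⌋ • Pi.single e (Γ.len e) + Pi.single e (r - ⌊r / Γ.len e⌋ * Γ.len e) := by
    funext e'
    by_cases h : e' = e
    · subst h
      simp
    · simp [h]
  rw [h2]
  refine Γ.reach.add_mem (Γ.reach.zsmul_mem (h1 _ hlen.le le_rfl) _) (h1 _ ?_ ?_)
  · have := Int.floor_le (r / Γ.len e)
    rw [le_div_iff₀ hlen] at this
    linarith
  · have := (Int.lt_floor_add_one (r / Γ.len e)).le
    rw [div_le_iff₀ hlen] at this
    linarith

/-- The Abel-Jacobi map is surjective. -/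
theorem aj_surjective : Function.Surjective Γ.aj := by
  intro x
  obtain ⟨η, rfl⟩ := QuotientAddGroup.mk_surjective x
  have hη : η ∈ Γ.reach := by
    rw [← Finset.univ_sum_single η]
    exact Γ.reach.sum_mem fun e _ => Γ.single_mem_reach e (η e)
  obtain ⟨s, D, h, hi⟩ := hη
  refine ⟨Γ.cls ⟨D, deg_eq_zero_of_isBoundary h⟩, ?_⟩
  rw [aj_cls, aj_eq (D := ⟨D, deg_eq_zero_of_isBoundary h⟩) h, hi]

end MetricGraph

end Pool.Agent.TropBN
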