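import Pool.Agent.TropBN.Chain

/-!
# The Baker-Norine rank in terms of `RankCond`
-/

namespace Pool.Agent.TropBN

namespace MetricGraph

variable {Γ : MetricGraph}

lemma deg_nonneg {E : Γ.Div} (hE : 0 ≤ E) : 0 ≤ Γ.deg E :=
  Finset.sum_nonneg fun x _ => hE x

lemma eq_zero_of_deg_eq_zero {E : Γ.Div} (hE : 0 ≤ E) (h : Γ.deg E = 0) : E = 0 := by
  have h1 : ∀ x ∈ E.support, E x = 0 := by
    have h2 : ∑ x ∈ E.support, E x = 0 := h
    exact (Finset.sum_eq_zero_iff_of_nonneg fun x _ => hE x).1 h2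
  ext x
  by_cases hx : x ∈ E.support
  · simpa using h1 x hx
  · simpa using hx

/-- `RankCond` is monotone: take any point `x` of `Γ` (a vertex) and add it to the effective divisor `E`;
linear equivalence is an equivalence relation compatible with addition. -/
theorem RankCond.mono {D : Γ.Div} {k l : ℕ} (h : Γ.RankCond D l) (hkl : k ≤ l) : Γ.RankCond D k := by
  intro E hE hd
  obtain ⟨v⟩ := Γ.nonempty
  set A : Γ.Div := Finsupp.single (Γ.vert v) ((l : ℤ) - k) with hA
  have hA0 : 0 ≤ A := by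
    rw [hA]
    exact Finsupp.single_nonneg.2 (by omega)
  obtain ⟨E', hE', f, hf⟩ := h (E + A) (add_nonneg hE hA0) (by
    rw [deg_add, hd, hA, deg_single]
    ring)
  refine ⟨E' + A, add_nonneg hE' hA0, f, ?_⟩
  have : E' + A - (D - E) = E' - (D - (E + A)) := by abel
  rwa [this]

lemma LinEquiv.deg_eq {D D' : Γ.Div} (h : Γ.LinEquiv D D') : Γ.deg D = Γ.deg D' := by
  obtain ⟨f, hf⟩ := h
  obtain ⟨s, hs, -⟩ := exists_isBoundary_of_isDivOf hf
  have := deg_eq_zero_of_isBoundary hs
  rw [deg_sub] at this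
  omega

/-- If `RankCond D k` holds then `k ≤ deg D` (linear equivalence preserves degrees, by
`exists_isBoundary_of_isDivOf` and `deg_eq_zero_of_isBoundary`; effective divisors have degree `≥ 0`). -/
theorem RankCond.le_deg {D : Γ.Div} {k : ℕ} (h : Γ.RankCond D k) : (k : ℤ) ≤ Γ.deg D := by
  obtain ⟨v⟩ := Γ.nonempty
  obtain ⟨E', hE', hl⟩ := h (Finsupp.single (Γ.vert v) (k : ℤ))
    (Finsupp.single_nonneg.2 (by omega)) (Γ.deg_single _ _)
  have h1 := hl.deg_eq
  rw [deg_sub, deg_single] at h1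
  have h2 := deg_nonneg hE'
  omega

theorem le_rank_iff (D : Γ.Div) (k : ℕ) : (k : ℤ) ≤ Γ.rank D ↔ Γ.RankCond D k := by
  unfold rank
  split_ifs with hE
  · have hb : BddAbove {k : ℕ | Γ.RankCond D k} :=
      ⟨(Γ.deg D).toNat, fun k hk => by
        have := RankCond.le_deg hk
        omega⟩
    have h0 : Γ.RankCond D 0 := by
      intro E hE0 hd
      rw [eq_zero_of_deg_eq_zero hE0 (by simpa using hd), sub_zero]
      exact hE
    rw [Nat.cast_le]
    constructor
    · intro hk
      exact RankCond.mono (Nat.sSup_mem ⟨0, h0⟩ hb) hk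
    · intro hk
      exact le_csSup hb hk
  · constructor
    · intro hk
      omega
    · intro hk
      obtain ⟨E', hE', hl⟩ := (hk.mono (Nat.zero_le k)) 0 le_rfl (by simpa using Γ.deg_zero)
      rw [sub_zero] at hl
      exact absurd ⟨E', hE', hl⟩ hE

end MetricGraph

end Pool.Agent.TropBN
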