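import Pool.Agent.TropBN.Pic
import Pool.Agent.TropBN.R

/-!
# The trivalent metric graph of genus `21`

The Moebius ladder on `ZMod 8` (rim edges from `v` to `v + 1` of length `2`, chords between `k` and
`k + 4` of length `8`) with every vertex `v` replaced by a copy of `K_{2,3}` with three ports
`(v, inl i)` and two centres `(v, inr j)` and legs of length `1`. The rim edge from `v` to `v + 1`
goes from the port `0` of `v` to the port `1` of `v + 1`; the chords join the ports `2`.
-/

namespace Pool.Agent.TropBN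

/-- The vertices. -/
abbrev VT : Type := ZMod 8 × (Fin 3 ⊕ Fin 2)

/-- The edges: legs, rim edges, chords. -/
abbrev ET : Type := (ZMod 8 × Fin 3 × Fin 2) ⊕ (ZMod 8 ⊕ Fin 4)

/-- The first end of an edge. -/
def gsrc : ET → VT
  | Sum.inl (v, i, _) => (v, Sum.inl i)
  | Sum.inr (Sum.inl v) => (v, Sum.inl 0)
  | Sum.inr (Sum.inr k) => ((k.val : ZMod 8), Sum.inl 2)

/-- The second end of an edge. -/
def gtgt : ET → VT
  | Sum.inl (v, _, j) => (v, Sum.inr j)
  | Sum.inr (Sum.inl v) => (v + 1, Sum.inl 1)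
  | Sum.inr (Sum.inr k) => ((k.val : ZMod 8) + 4, Sum.inl 2)

/-- The length of an edge. -/
def glen : ET → ℝ
  | Sum.inl _ => 1
  | Sum.inr (Sum.inl _) => 2
  | Sum.inr (Sum.inr _) => 8

lemma glen_pos (e : ET) : 0 < glen e := by
  rcases e with e | e | e <;> simp [glen]

/-- Adjacency relation used for connectivity. -/
def gadj (a b : VT) : Prop := ∃ e, gsrc e = a ∧ gtgt e = b

lemma gconn_gadget (v : ZMod 8) (x : Fin 3 ⊕ Fin 2) :
    Relation.EqvGen gadj (v, Sum.inl 0) (v, x) := by
  have h0 : ∀ i : Fin 3, Relation.EqvGen gadj (v, Sum.inl i) (v, Sum.inr 0) := fun i =>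
    Relation.EqvGen.rel _ _ ⟨Sum.inl (v, i, 0), rfl, rfl⟩
  rcases x with i | j
  · exact Relation.EqvGen.trans _ _ _ (h0 0) (Relation.EqvGen.symm _ _ (h0 i))
  · exact Relation.EqvGen.rel _ _ ⟨Sum.inl (v, 0, j), rfl, rfl⟩

lemma gconn_rim (v : ZMod 8) :
    Relation.EqvGen gadj (v, Sum.inl 0) (v + 1, Sum.inl 0) :=
  Relation.EqvGen.trans _ _ _ (Relation.EqvGen.rel _ _ ⟨Sum.inr (Sum.inl v), rfl, rfl⟩)
    (Relation.EqvGen.symm _ _ (gconn_gadget (v + 1) (Sum.inl 1)))

lemma gconn_zero (n : ℕ) : Relation.EqvGen gadj (0, Sum.inl 0) ((n : ZMod 8), Sum.inl 0) := by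
  induction n with
  | zero => simpa using Relation.EqvGen.refl _
  | succ n ih =>
    push_cast
    exact Relation.EqvGen.trans _ _ _ ih (gconn_rim _)

lemma gconn (a b : VT) : Relation.EqvGen gadj a b := by
  have h : ∀ a : VT, Relation.EqvGen gadj (0, Sum.inl 0) a := by
    rintro ⟨v, x⟩
    have := gconn_zero v.val
    rw [ZMod.natCast_zmod_val] at this
    exact Relation.EqvGen.trans _ _ _ this (gconn_gadget v x)
  exact Relation.EqvGen.trans _ _ _ (Relation.EqvGen.symm _ _ (h a)) (h b)

/-- The trivalent metric graph of genus `21`. -/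
noncomputable def Gr : MetricGraph where
  V := VT
  E := ET
  fintypeV := inferInstance
  fintypeE := inferInstance
  decEqV := inferInstance
  decEqE := inferInstance
  src := gsrc
  tgt := gtgt
  len := glen
  len_pos := glen_pos
  nonempty := ⟨(0, Sum.inl 0)⟩
  conn := gconn

lemma genus_Gr : Gr.genus = 21 := by
  have h1 : Fintype.card Gr.V = 40 := by
    change Fintype.card VT = 40
    decide
  have h2 : Fintype.card Gr.E = 60 := by
    change Fintype.card ET = 60
    decide
  unfold MetricGraph.genus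
  rw [h1, h2]
  norm_num

/-- The port `i` of the gadget `v`. -/
noncomputable def port (v : ZMod 8) (i : Fin 3) : Gr.V := (v, Sum.inl i)

/-- The centre `j` of the gadget `v`. -/
noncomputable def cen (v : ZMod 8) (j : Fin 2) : Gr.V := (v, Sum.inr j)

/-- The leg from the port `i` to the centre `j` of the gadget `v`. -/
noncomputable def leg (v : ZMod 8) (i : Fin 3) (j : Fin 2) : Gr.E := Sum.inl (v, i, j)

/-- The rim edge from `v` to `v + 1`. -/
noncomputable def rim (v : ZMod 8) : Gr.E := Sum.inr (Sum.inl v)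

/-- The chord from `k` to `k + 4`. -/
noncomputable def chord (k : Fin 4) : Gr.E := Sum.inr (Sum.inr k)

section sums

variable (f : Gr.E → ℤ) (v : ZMod 8)

lemma sum_E {M : Type} [AddCommMonoid M] (f : Gr.E → M) : ∑ e, f e =
    (∑ v, ∑ i, ∑ j, f (leg v i j)) + ((∑ v, f (rim v)) + ∑ k, f (chord k)) := by
  have h1 : ∑ e, f e = ∑ e : ET, f e := rfl
  rw [h1, Fintype.sum_sum_type, Fintype.sum_sum_type, Fintype.sum_prod_type]
  congr 1
  apply Finset.sum_congr rfl
  intro v _
  rw [Fintype.sum_prod_type]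
  rfl

lemma src_leg (i : Fin 3) (j : Fin 2) : Gr.src (leg v i j) = port v i := rfl
lemma tgt_leg (i : Fin 3) (j : Fin 2) : Gr.tgt (leg v i j) = cen v j := rfl
lemma src_rim : Gr.src (rim v) = port v 0 := rfl
lemma tgt_rim : Gr.tgt (rim v) = port (v + 1) 1 := rfl
lemma src_chord (k : Fin 4) : Gr.src (chord k) = port k.val 2 := rfl
lemma tgt_chord (k : Fin 4) : Gr.tgt (chord k) = port (k.val + 4) 2 := rfl
lemma len_leg (i : Fin 3) (j : Fin 2) : Gr.len (leg v i j) = 1 := rfl
lemma len_rim : Gr.len (rim v) = 2 := rfl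
lemma len_chord (k : Fin 4) : Gr.len (chord k) = 8 := rfl

lemma port_inj (v v' : ZMod 8) (i i' : Fin 3) : port v i = port v' i' ↔ v = v' ∧ i = i' := by
  unfold port
  constructor
  · intro h
    have h1 := (Prod.mk.injEq _ _ _ _).mp h
    exact ⟨h1.1, Sum.inl.inj h1.2⟩
  · rintro ⟨rfl, rfl⟩
    rfl

lemma cen_inj (v v' : ZMod 8) (j j' : Fin 2) : cen v j = cen v' j' ↔ v = v' ∧ j = j' := by
  unfold cen
  constructor
  · intro h
    have h1 := (Prod.mk.injEq _ _ _ _).mp h
    exact ⟨h1.1, Sum.inr.inj h1.2⟩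
  · rintro ⟨rfl, rfl⟩
    rfl

lemma port_ne_cen (v v' : ZMod 8) (i : Fin 3) (j : Fin 2) : port v i ≠ cen v' j := by
  unfold port cen
  intro h
  have h1 := (Prod.mk.injEq _ _ _ _).mp h
  exact absurd h1.2 (by simp)

lemma sum_src_cen (j : Fin 2) : ∑ e, (if Gr.src e = cen v j then f e else 0) = 0 := by
  apply Finset.sum_eq_zero
  intro e _
  rw [if_neg]
  rcases e with ⟨v', i', j'⟩ | v' | k
  · exact port_ne_cen _ _ _ _
  · exact port_ne_cen _ _ _ _
  · exact port_ne_cen _ _ _ _

lemma sum_tgt_cen (j : Fin 2) : ∑ e, (if Gr.tgt e = cen v j then f e else 0) =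
    f (leg v 0 j) + f (leg v 1 j) + f (leg v 2 j) := by
  rw [sum_E]
  simp only [tgt_leg, tgt_rim, tgt_chord, cen_inj, port_ne_cen, if_false, Finset.sum_const_zero,
    add_zero]
  rw [Finset.sum_eq_single v]
  · simp only [true_and]
    rw [Fin.sum_univ_three]
    simp [Finset.sum_ite_eq']
  · intro b _ hb
    simp [hb]
  · simp

lemma sum_src_port (i : Fin 3) : ∑ e, (if Gr.src e = port v i then f e else 0) =
    f (leg v i 0) + f (leg v i 1) + (if i = 0 then f (rim v) else 0) +
      (if i = 2 then ∑ k : Fin 4, (if (k.val : ZMod 8) = v then f (chord k) else 0) else 0) := by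
  rw [sum_E]
  simp only [src_leg, src_rim, src_chord, port_inj]
  rw [add_assoc]
  congr 1
  · rw [Finset.sum_eq_single v]
    · rw [Finset.sum_eq_single i]
      · simp [Fin.sum_univ_two]
      · intro b _ hb
        simp [hb]
      · simp
    · intro b _ hb
      simp [hb]
    · simp
  · congr 1
    · by_cases hi : i = 0
      · subst hi
        simp
      · have : ¬ (0 : Fin 3) = i := fun h => hi h.symm
        simp [hi, this]
    · by_cases hi : i = 2
      · subst hi
        simp
      · have : ¬ (2 : Fin 3) = i := fun h => hi h.symm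
        simp [hi, this]

lemma sum_tgt_port (i : Fin 3) : ∑ e, (if Gr.tgt e = port v i then f e else 0) =
    (if i = 1 then f (rim (v - 1)) else 0) +
      (if i = 2 then ∑ k : Fin 4, (if (k.val : ZMod 8) + 4 = v then f (chord k) else 0) else 0) := by
  rw [sum_E]
  have h0 : ∀ v' j', ¬ cen v' j' = port v i := fun v' j' h => port_ne_cen _ _ _ _ h.symm
  simp only [tgt_leg, tgt_rim, tgt_chord, port_inj, h0, if_false, Finset.sum_const_zero, zero_add]
  congr 1
  · by_cases hi : i = 1
    · subst hi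
      rw [Finset.sum_eq_single (v - 1)]
      · simp
      · intro b _ hb
        have : ¬ b + 1 = v := fun h => hb (by rw [← h]; ring)
        simp [this]
      · simp
    · have : ¬ (1 : Fin 3) = i := fun h => hi h.symm
      simp [hi, this]
  · by_cases hi : i = 2
    · subst hi
      simp
    · have : ¬ (2 : Fin 3) = i := fun h => hi h.symm
      simp [hi, this]

end sums

/-- Every `v` is `k` or `k + 4` with `k < 4`. -/
lemma cases8 (v : ZMod 8) : ∃ k : Fin 4, v = k.val ∨ v = k.val + 4 := by
  revert v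
  decide

/-- The divisor `D₀`: the sum of the midpoints of the rim edges and of the chords. -/
noncomputable def D0 : Gr.Div :=
  ∑ v : ZMod 8, Finsupp.single (Gr.pt (rim v) 1) 1 + ∑ k : Fin 4, Finsupp.single (Gr.pt (chord k) 4) 1

end Pool.Agent.TropBN
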