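import Pool.Agent.TropBN.Moves
import Pool.Agent.TropBN.Graph

/-!
# The rank of `D₀` is at least one
-/

namespace Pool.Agent.TropBN

open Finsupp MetricGraph

/-- The distance from `0` on the cycle `ZMod 8`. -/
def d8 (a : ZMod 8) : ℕ := min a.val (8 - a.val)

lemma d8_succ (a : ZMod 8) : d8 a ≤ d8 (a + 1) + 1 ∧ d8 (a + 1) ≤ d8 a + 1 := by
  revert a
  decide

lemma d8_add_four (a : ZMod 8) : d8 a + d8 (a + 4) = 4 := by
  revert a
  decide

/-- The potential `max (d - dist (u, v), 0)`. -/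
noncomputable def pot (v : ZMod 8) (d : ℝ) (u : ZMod 8) : ℝ := max (d - d8 (u - v)) 0

lemma pot_rim (v : ZMod 8) (d : ℝ) (u : ZMod 8) : |pot v d u - pot v d (u + 1)| ≤ 1 := by
  unfold pot
  refine (abs_max_sub_max_le_abs _ _ _).trans ?_
  obtain ⟨h1, h2⟩ := d8_succ (u - v)
  rw [show u - v + 1 = u + 1 - v by ring] at h1 h2
  have h1' : (d8 (u - v) : ℝ) ≤ d8 (u + 1 - v) + 1 := by exact_mod_cast h1
  have h2' : (d8 (u + 1 - v) : ℝ) ≤ d8 (u - v) + 1 := by exact_mod_cast h2
  rw [abs_le]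
  constructor <;> linarith

lemma pot_chord (v : ZMod 8) (d : ℝ) (u : ZMod 8) : |pot v d u - pot v d (u + 4)| ≤ 4 := by
  unfold pot
  refine (abs_max_sub_max_le_abs _ _ _).trans ?_
  have h1 := d8_add_four (u - v)
  rw [show u - v + 4 = u + 4 - v by ring] at h1
  have h1' : (d8 (u - v) : ℝ) + d8 (u + 4 - v) = 4 := by exact_mod_cast h1
  have h2 : (0 : ℝ) ≤ d8 (u - v) := Nat.cast_nonneg _
  have h3 : (0 : ℝ) ≤ d8 (u + 4 - v) := Nat.cast_nonneg _
  rw [abs_le]
  constructor <;> linarith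

lemma pot_self (v : ZMod 8) {d : ℝ} (hd : 0 ≤ d) : pot v d v = d := by
  unfold pot
  rw [sub_self, show d8 0 = 0 from rfl]
  simpa using hd

lemma pot_succ (v : ZMod 8) (d : ℝ) : pot v d (v + 1) = max (d - 1) 0 := by
  unfold pot
  rw [add_sub_cancel_left, show d8 1 = 1 from rfl]
  simp

lemma pot_pred (v : ZMod 8) (d : ℝ) : pot (v + 1) d v = max (d - 1) 0 := by
  unfold pot
  rw [show v - (v + 1) = -1 by ring, show d8 (-1) = 1 by decide]
  simp

lemma pot_add_four (v : ZMod 8) {d : ℝ} (hd : d ≤ 4) : pot v d (v + 4) = 0 := by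
  unfold pot
  rw [add_sub_cancel_left, show d8 4 = 4 from rfl]
  simpa using hd

lemma pot_sub_four (v : ZMod 8) {d : ℝ} (hd : d ≤ 4) : pot (v + 4) d v = 0 := by
  unfold pot
  rw [show v - (v + 4) = -4 by ring, show d8 (-4) = 4 by decide]
  simpa using hd

/-- The divisor equivalent to `D₀` given by a potential. -/
noncomputable def EF (F : VT → ℝ) : Gr.Div :=
  (∑ v, single (Gr.pt (rim v) (1 + (F (v, Sum.inl 0) - F (v + 1, Sum.inl 1)))) 1 +
    ∑ k : Fin 4, single (Gr.pt (chord k)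
      (4 + (F ((k.val : ZMod 8), Sum.inl 2) - F ((k.val : ZMod 8) + 4, Sum.inl 2)))) 1) +
  ∑ v, ∑ i, ∑ j, (single (Gr.pt (leg v i j) (F (v, Sum.inl i) - F (v, Sum.inr j))) 1 -
    single (Gr.vert (port v i)) 1)

lemma EF_equiv (F : VT → ℝ) (hr : ∀ v, |F (v, Sum.inl 0) - F (v + 1, Sum.inl 1)| ≤ 1)
    (hc : ∀ v, |F (v, Sum.inl 2) - F (v + 4, Sum.inl 2)| ≤ 4)
    (hl : ∀ v i j, 0 ≤ F (v, Sum.inl i) - F (v, Sum.inr j))
    (hl' : ∀ v i j, F (v, Sum.inl i) - F (v, Sum.inr j) ≤ 1) : Gr.LinEquiv D0 (EF F) := by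
  let x : Gr.E → ℝ := Sum.elim (fun _ => (0 : ℝ)) (Sum.elim (fun _ => (1 : ℝ)) (fun _ => (4 : ℝ)))
  let y : Gr.E → ℝ := fun e => x e + (F (gsrc e) - F (gtgt e))
  have hx : ∀ e, 0 ≤ x e := by
    rintro (e | e | e)
    · exact le_rfl
    · exact zero_le_one
    · change (0 : ℝ) ≤ 4
      norm_num
  have hx' : ∀ e, x e ≤ Gr.len e := by
    rintro (e | e | e)
    · change (0 : ℝ) ≤ 1
      norm_num
    · change (1 : ℝ) ≤ 2
      norm_num
    · change (4 : ℝ) ≤ 8
      norm_num
  have hy : ∀ e, 0 ≤ y e := by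
    rintro (⟨v, i, j⟩ | v | k)
    · change 0 ≤ 0 + (F (v, Sum.inl i) - F (v, Sum.inr j))
      linarith [hl v i j]
    · change 0 ≤ 1 + (F (v, Sum.inl 0) - F (v + 1, Sum.inl 1))
      linarith [(abs_le.1 (hr v)).1]
    · change 0 ≤ 4 + (F ((k.val : ZMod 8), Sum.inl 2) - F ((k.val : ZMod 8) + 4, Sum.inl 2))
      linarith [(abs_le.1 (hc (k.val : ZMod 8))).1]
  have hy' : ∀ e, y e ≤ Gr.len e := by
    rintro (⟨v, i, j⟩ | v | k)
    · change 0 + (F (v, Sum.inl i) - F (v, Sum.inr j)) ≤ 1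
      linarith [hl' v i j]
    · change 1 + (F (v, Sum.inl 0) - F (v + 1, Sum.inl 1)) ≤ 2
      linarith [(abs_le.1 (hr v)).2]
    · change 4 + (F ((k.val : ZMod 8), Sum.inl 2) - F ((k.val : ZMod 8) + 4, Sum.inl 2)) ≤ 8
      linarith [(abs_le.1 (hc (k.val : ZMod 8))).2]
  have hF : ∀ e, F (Gr.src e) - F (Gr.tgt e) = y e - x e := by
    intro e
    change F (gsrc e) - F (gtgt e) = _
    simp only [y]
    ring
  obtain ⟨f, hf⟩ := moves_principal hx hx' hy hy' F hF
  refine ⟨f, ?_⟩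
  convert hf using 1
  rw [sum_E, EF, D0]
  have e1 : ∀ v, single (Gr.pt (rim v) (y (rim v))) (1 : ℤ) - single (Gr.pt (rim v) (x (rim v))) 1
      = single (Gr.pt (rim v) (1 + (F (v, Sum.inl 0) - F (v + 1, Sum.inl 1)))) 1 -
        single (Gr.pt (rim v) 1) 1 := fun v => rfl
  have e2 : ∀ k : Fin 4, single (Gr.pt (chord k) (y (chord k))) (1 : ℤ) -
        single (Gr.pt (chord k) (x (chord k))) 1
      = single (Gr.pt (chord k) (4 + (F ((k.val : ZMod 8), Sum.inl 2) -
          F ((k.val : ZMod 8) + 4, Sum.inl 2)))) 1 - single (Gr.pt (chord k) 4) 1 := fun v => rfl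
  have e3 : ∀ v i j, single (Gr.pt (leg v i j) (y (leg v i j))) (1 : ℤ) -
        single (Gr.pt (leg v i j) (x (leg v i j))) 1
      = single (Gr.pt (leg v i j) (F (v, Sum.inl i) - F (v, Sum.inr j))) 1 -
        single (Gr.vert (port v i)) 1 := by
    intro v i j
    have h1 : y (leg v i j) = F (v, Sum.inl i) - F (v, Sum.inr j) := by
      change 0 + (F (v, Sum.inl i) - F (v, Sum.inr j)) = _
      rw [zero_add]
    have h2 : Gr.pt (leg v i j) (x (leg v i j)) = Gr.vert (port v i) := by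
      change Gr.pt (leg v i j) 0 = _
      unfold MetricGraph.pt
      rw [dif_pos le_rfl]
      rfl
    rw [h1, h2]
  simp only [e1, e2, e3]
  simp only [Finset.sum_sub_distrib]
  abel

/-- The potential which is constant on each gadget. -/
noncomputable def potF (v : ZMod 8) (d : ℝ) : VT → ℝ := fun p => pot v d p.1

lemma EF_potF (v : ZMod 8) (d : ℝ) : EF (potF v d) =
    ∑ u, single (Gr.pt (rim u) (1 + (pot v d u - pot v d (u + 1)))) 1 +
    ∑ k : Fin 4, single (Gr.pt (chord k)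
      (4 + (pot v d (k.val : ZMod 8) - pot v d ((k.val : ZMod 8) + 4)))) 1 := by
  unfold EF potF
  rw [add_eq_left]
  apply Finset.sum_eq_zero
  intro v _
  apply Finset.sum_eq_zero
  intro i _
  apply Finset.sum_eq_zero
  intro j _
  have : Gr.pt (leg v i j) 0 = Gr.vert (port v i) := by
    unfold MetricGraph.pt
    rw [dif_pos le_rfl]
    rfl
  simp only [sub_self, this]

lemma potF_equiv (v : ZMod 8) (d : ℝ) : Gr.LinEquiv D0 (EF (potF v d)) :=
  EF_equiv _ (fun u => pot_rim v d u) (fun u => pot_chord v d u)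
    (fun u i j => by simp [potF]) (fun u i j => by simp [potF])

lemma single_one_nonneg (q : Gr.Point) : (0 : Gr.Div) ≤ single q 1 :=
  Finsupp.single_nonneg.2 zero_le_one

lemma rim_le_EF_potF (v : ZMod 8) (d : ℝ) (u : ZMod 8) :
    single (Gr.pt (rim u) (1 + (pot v d u - pot v d (u + 1)))) 1 ≤ EF (potF v d) := by
  rw [EF_potF]
  refine le_add_of_le_of_nonneg ?_ (Finset.sum_nonneg fun _ _ => single_one_nonneg _)
  exact Finset.single_le_sum
    (f := fun u => single (Gr.pt (rim u) (1 + (pot v d u - pot v d (u + 1)))) (1 : ℤ))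
    (fun _ _ => single_one_nonneg _) (Finset.mem_univ u)

lemma chord_le_EF_potF (v : ZMod 8) (d : ℝ) (k : Fin 4) :
    single (Gr.pt (chord k)
      (4 + (pot v d (k.val : ZMod 8) - pot v d ((k.val : ZMod 8) + 4)))) 1 ≤ EF (potF v d) := by
  rw [EF_potF]
  refine le_add_of_nonneg_of_le (Finset.sum_nonneg fun _ _ => single_one_nonneg _) ?_
  exact Finset.single_le_sum
    (f := fun k : Fin 4 => single (Gr.pt (chord k)
      (4 + (pot v d (k.val : ZMod 8) - pot v d ((k.val : ZMod 8) + 4)))) (1 : ℤ))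
    (fun _ _ => single_one_nonneg _) (Finset.mem_univ k)

lemma reach_rim (v : ZMod 8) {y : ℝ} (h0 : 0 ≤ y) (h2 : y ≤ 2) :
    ∃ E : Gr.Div, single (Gr.pt (rim v) y) 1 ≤ E ∧ Gr.LinEquiv D0 E := by
  rcases le_total y 1 with h | h
  · refine ⟨_, ?_, potF_equiv (v + 1) (1 - y)⟩
    have := rim_le_EF_potF (v + 1) (1 - y) v
    rw [pot_self _ (by linarith), pot_pred, max_eq_right (by linarith)] at this
    convert this using 3
    ring
  · refine ⟨_, ?_, potF_equiv v (y - 1)⟩
    have := rim_le_EF_potF v (y - 1) v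
    rw [pot_self _ (by linarith), pot_succ, max_eq_right (by linarith)] at this
    convert this using 3
    ring

lemma reach_chord (k : Fin 4) {y : ℝ} (h0 : 0 ≤ y) (h2 : y ≤ 8) :
    ∃ E : Gr.Div, single (Gr.pt (chord k) y) 1 ≤ E ∧ Gr.LinEquiv D0 E := by
  rcases le_total y 4 with h | h
  · refine ⟨_, ?_, potF_equiv ((k.val : ZMod 8) + 4) (4 - y)⟩
    have := chord_le_EF_potF ((k.val : ZMod 8) + 4) (4 - y) k
    rw [pot_self _ (by linarith), pot_sub_four _ (by linarith)] at this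
    convert this using 3
    ring
  · refine ⟨_, ?_, potF_equiv (k.val : ZMod 8) (y - 4)⟩
    have := chord_le_EF_potF (k.val : ZMod 8) (y - 4) k
    rw [pot_self _ (by linarith), pot_add_four _ (by linarith)] at this
    convert this using 3
    ring

/-- The potential reaching the legs of the gadget `w` at the centre `j`. -/
noncomputable def legF (w : ZMod 8) (j : Fin 2) (t : ℝ) : VT → ℝ := fun p =>
  - pot w 4 p.1 - (if p = (w, Sum.inr j) then t else 0)

lemma legF_port (w : ZMod 8) (j : Fin 2) (t : ℝ) (u : ZMod 8) (i : Fin 3) :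
    legF w j t (u, Sum.inl i) = - pot w 4 u := by
  simp [legF]

lemma legF_cen (w : ZMod 8) (j : Fin 2) (t : ℝ) (u : ZMod 8) (j' : Fin 2) :
    legF w j t (u, Sum.inr j') = - pot w 4 u - (if u = w ∧ j' = j then t else 0) := by
  simp [legF]

lemma legF_equiv (w : ZMod 8) (j : Fin 2) {t : ℝ} (h0 : 0 ≤ t) (h1 : t ≤ 1) :
    Gr.LinEquiv D0 (EF (legF w j t)) := by
  refine EF_equiv _ ?_ ?_ ?_ ?_
  · intro v
    rw [legF_port, legF_port, neg_sub_neg, abs_sub_comm]
    exact pot_rim _ _ _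
  · intro v
    rw [legF_port, legF_port, neg_sub_neg, abs_sub_comm]
    exact pot_chord _ _ _
  · intro v i j'
    rw [legF_port, legF_cen]
    split_ifs <;> linarith
  · intro v i j'
    rw [legF_port, legF_cen]
    split_ifs <;> linarith

lemma reach_leg (w : ZMod 8) (i : Fin 3) (j : Fin 2) {t : ℝ} (h0 : 0 ≤ t) (h1 : t ≤ 1) :
    ∃ E : Gr.Div, single (Gr.pt (leg w i j) t) 1 ≤ E ∧ Gr.LinEquiv D0 E := by
  refine ⟨_, ?_, legF_equiv w j h0 h1⟩
  -- the legs
  have hleg : ∑ v, ∑ i, ∑ j', (single (Gr.pt (leg v i j')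
        (legF w j t (v, Sum.inl i) - legF w j t (v, Sum.inr j'))) (1 : ℤ) -
      single (Gr.vert (port v i)) 1) =
      ∑ i, (single (Gr.pt (leg w i j) t) (1 : ℤ) - single (Gr.vert (port w i)) 1) := by
    have hz : ∀ v i j', Gr.pt (leg v i j') 0 = Gr.vert (port v i) := by
      intro v i j'
      unfold MetricGraph.pt
      rw [dif_pos le_rfl]
      rfl
    rw [Finset.sum_eq_single w]
    · apply Finset.sum_congr rfl
      intro i _
      rw [Finset.sum_eq_single j]
      · rw [legF_port, legF_cen, if_pos ⟨rfl, rfl⟩, sub_sub_cancel]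
      · intro j' _ hj
        rw [legF_port, legF_cen, if_neg (fun h => hj h.2), sub_zero, sub_self, hz, sub_self]
      · simp
    · intro v _ hv
      apply Finset.sum_eq_zero
      intro i _
      apply Finset.sum_eq_zero
      intro j' _
      rw [legF_port, legF_cen, if_neg (fun h => hv h.1), sub_zero, sub_self, hz, sub_self]
    · simp
  have hrims : single (Gr.vert (port w 0)) (1 : ℤ) + single (Gr.vert (port w 1)) 1 ≤
      ∑ v, single (Gr.pt (rim v) (1 + (legF w j t (v, Sum.inl 0) -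
        legF w j t (v + 1, Sum.inl 1)))) 1 := by
    have hne : w - 1 ≠ w := fun h => absurd (sub_eq_self.1 h) (by decide)
    have h := Finset.sum_le_sum_of_subset_of_nonneg (s := {w, w - 1}) (t := Finset.univ)
      (f := fun v => single (Gr.pt (rim v) (1 + (legF w j t (v, Sum.inl 0) -
        legF w j t (v + 1, Sum.inl 1)))) (1 : ℤ)) (Finset.subset_univ _)
      (fun _ _ _ => single_one_nonneg _)
    rw [Finset.sum_pair hne.symm] at h
    have e1 : Gr.pt (rim w) (1 + (legF w j t (w, Sum.inl 0) - legF w j t (w + 1, Sum.inl 1))) =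
        Gr.vert (port w 0) := by
      rw [legF_port, legF_port, pot_self _ (by norm_num), pot_succ]
      have : (1 : ℝ) + (-4 - -(max (4 - 1) 0)) = 0 := by
        rw [max_eq_left (by norm_num)]
        norm_num
      rw [this]
      unfold MetricGraph.pt
      rw [dif_pos le_rfl]
      rfl
    have e2 : Gr.pt (rim (w - 1)) (1 + (legF w j t (w - 1, Sum.inl 0) -
        legF w j t (w - 1 + 1, Sum.inl 1))) = Gr.vert (port w 1) := by
      rw [legF_port, legF_port, sub_add_cancel, pot_self _ (by norm_num)]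
      have h2 : pot w 4 (w - 1) = 3 := by
        have := pot_pred (w - 1) 4
        rw [sub_add_cancel] at this
        rw [this, max_eq_left (by norm_num)]
        norm_num
      rw [h2]
      unfold MetricGraph.pt
      rw [dif_neg (by norm_num), dif_pos (by rw [len_rim]; norm_num), tgt_rim, sub_add_cancel]
    rw [e1, e2] at h
    exact h
  have hchord : single (Gr.vert (port w 2)) (1 : ℤ) ≤
      ∑ k : Fin 4, single (Gr.pt (chord k)
      (4 + (legF w j t ((k.val : ZMod 8), Sum.inl 2) -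
        legF w j t ((k.val : ZMod 8) + 4, Sum.inl 2)))) 1 := by
    obtain ⟨k, hk⟩ := cases8 w
    refine le_trans (le_of_eq ?_) (Finset.single_le_sum
      (f := fun k : Fin 4 => single (Gr.pt (chord k)
      (4 + (legF w j t ((k.val : ZMod 8), Sum.inl 2) -
        legF w j t ((k.val : ZMod 8) + 4, Sum.inl 2)))) (1 : ℤ))
      (fun _ _ => single_one_nonneg _) (Finset.mem_univ k))
    congr 1
    rcases hk with rfl | rfl
    · rw [legF_port, legF_port, pot_self _ (by norm_num), pot_add_four _ le_rfl]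
      have : (4 : ℝ) + (-4 - -0) = 0 := by norm_num
      rw [this]
      unfold MetricGraph.pt
      rw [dif_pos le_rfl]
      rfl
    · rw [legF_port, legF_port, pot_self _ (by norm_num), pot_sub_four _ le_rfl]
      unfold MetricGraph.pt
      rw [dif_neg (by norm_num), dif_pos (by rw [len_chord]; norm_num), tgt_chord]
  unfold EF
  rw [hleg, Fin.sum_univ_three]
  have h3 : single (Gr.pt (leg w i j) t) (1 : ℤ) ≤ single (Gr.pt (leg w 0 j) t) 1 +
      single (Gr.pt (leg w 1 j) t) 1 + single (Gr.pt (leg w 2 j) t) 1 := by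
    have := Finset.single_le_sum (f := fun i => single (Gr.pt (leg w i j) t) (1 : ℤ))
      (fun _ _ => single_one_nonneg _) (Finset.mem_univ i)
    rwa [Fin.sum_univ_three] at this
  have h4 := add_le_add (add_le_add hrims hchord) h3
  refine le_of_sub_nonneg ?_
  have h5 := sub_nonneg.2 h4
  refine h5.trans (le_of_eq ?_)
  abel

lemma pt_eq_inner (e : Gr.E) (t : Set.Ioo (0 : ℝ) (Gr.len e)) :
    Gr.pt e t = Gr.inner e t := by
  unfold MetricGraph.pt
  rw [dif_neg (not_le.2 t.2.1), dif_neg (not_le.2 t.2.2)]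

lemma reach_point (q : Gr.Point) : ∃ E : Gr.Div, single q 1 ≤ E ∧ Gr.LinEquiv D0 E := by
  rcases q with ⟨v, i | j⟩ | ⟨⟨v, i, j⟩ | v | k, t, ht⟩
  · have h : (Sum.inl (v, Sum.inl i) : Gr.Point) = Gr.pt (leg v i 0) 0 := by
      unfold MetricGraph.pt
      rw [dif_pos le_rfl]
      rfl
    rw [h]
    exact reach_leg v i 0 le_rfl zero_le_one
  · have h : (Sum.inl (v, Sum.inr j) : Gr.Point) = Gr.pt (leg v 0 j) 1 := by
      unfold MetricGraph.pt
      rw [dif_neg (by norm_num), dif_pos (by rw [len_leg])]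
      rfl
    rw [h]
    exact reach_leg v 0 j zero_le_one le_rfl
  · change ∃ E : Gr.Div, single (Gr.inner (leg v i j) ⟨t, ht⟩) 1 ≤ E ∧ Gr.LinEquiv D0 E
    rw [← pt_eq_inner]
    exact reach_leg v i j ht.1.le ht.2.le
  · change ∃ E : Gr.Div, single (Gr.inner (rim v) ⟨t, ht⟩) 1 ≤ E ∧ Gr.LinEquiv D0 E
    rw [← pt_eq_inner]
    exact reach_rim v ht.1.le ht.2.le
  · change ∃ E : Gr.Div, single (Gr.inner (chord k) ⟨t, ht⟩) 1 ≤ E ∧ Gr.LinEquiv D0 E
    rw [← pt_eq_inner]
    exact reach_chord k ht.1.le ht.2.le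

/-- An effective divisor of degree `1` is a point. -/
lemma exists_eq_single {E : Gr.Div} (hE : 0 ≤ E) (h : Gr.deg E = 1) : ∃ q, E = single q 1 := by
  have hne : E ≠ 0 := by
    rintro rfl
    rw [deg_zero] at h
    omega
  obtain ⟨q, hq⟩ := Finsupp.ne_iff.1 hne
  have hq0 : 0 ≤ E q := hE q
  have hq1 : 1 ≤ E q := by
    have : E q ≠ 0 := hq
    omega
  refine ⟨q, ?_⟩
  have h1 : 0 ≤ E - single q 1 := by
    intro x
    rw [Finsupp.sub_apply, Finsupp.coe_zero, Pi.zero_apply]
    by_cases hx : x = q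
    · subst hx
      rw [Finsupp.single_eq_same]
      omega
    · rw [Finsupp.single_eq_of_ne hx]
      have := hE x
      simpa using this
  have h2 : Gr.deg (E - single q 1) = 0 := by
    rw [deg_sub, deg_single, h, sub_self]
  have := eq_zero_of_deg_eq_zero h1 h2
  exact sub_eq_zero.1 this

theorem rankCond_D0 : Gr.RankCond D0 1 := by
  intro E hE hd
  obtain ⟨q, rfl⟩ := exists_eq_single hE (by simpa using hd)
  obtain ⟨E', hE', f, hf⟩ := reach_point q
  refine ⟨E' - single q 1, sub_nonneg.2 hE', f, ?_⟩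
  have : E' - single q 1 - (D0 - single q 1) = E' - D0 := by abel
  rwa [this]

end Pool.Agent.TropBN
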