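import Pool.Agent.TropBN.Isolated
import Pool.Agent.TropBN.RankOne

/-!
# Assembly: an isolated point of `W^λ` with `g - |λ| = 1`
-/

namespace Pool.Agent.TropBN

open MetricGraph Topology

section general

variable {Γ : MetricGraph}

lemma RankCond.add_eff {D : Γ.Div} {k : ℕ} (h : Γ.RankCond D k) {T : Γ.Div} (hT : 0 ≤ T) :
    Γ.RankCond (D + T) k := by
  intro E hE hd
  obtain ⟨E', hE', f, hf⟩ := h E hE hd
  refine ⟨E' + T, add_nonneg hE' hT, f, ?_⟩
  have : E' + T - (D + T - E) = E' - (D - E) := by abel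
  rwa [this]

lemma RankCond.sub_eff {D : Γ.Div} {k l : ℕ} (h : Γ.RankCond D (k + l)) {T : Γ.Div} (hT : 0 ≤ T)
    (hd : Γ.deg T = l) : Γ.RankCond (D - T) k := by
  intro E hE hd'
  obtain ⟨E', hE', f, hf⟩ := h (T + E) (add_nonneg hT hE) (by
    rw [deg_add, hd, hd']
    push_cast
    ring)
  refine ⟨E', hE', f, ?_⟩
  have : E' - (D - T - E) = E' - (D - (T + E)) := by abel
  rwa [this]

end general

/-- The rectangle with `2` rows and `10` columns. -/
def rect : YoungDiagram where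
  cells := Finset.range 2 ×ˢ Finset.range 10
  isLowerSet := by
    rintro ⟨a, b⟩ ⟨c, d⟩ h hab
    simp only [Finset.coe_product, Finset.coe_range, Set.mem_prod, Set.mem_Iio] at hab ⊢
    have h1 : c ≤ a := h.1
    have h2 : d ≤ b := h.2
    omega

lemma card_rect : rect.card = 20 := rfl

lemma mem_rect {c : ℕ × ℕ} : c ∈ rect.cells ↔ c.1 < 2 ∧ c.2 < 10 := by
  change c ∈ Finset.range 2 ×ˢ Finset.range 10 ↔ _
  simp

lemma deg_D0 : Gr.deg D0 = 12 := by
  have h : ∀ (ι : Type) (s : Finset ι) (D : ι → Gr.Div),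
      Gr.deg (∑ i ∈ s, D i) = ∑ i ∈ s, Gr.deg (D i) := by
    classical
    intro ι s D
    induction s using Finset.induction with
    | empty => simp [deg_zero]
    | insert a s ha ih => rw [Finset.sum_insert ha, Finset.sum_insert ha, deg_add, ih]
  unfold D0
  rw [deg_add, h, h]
  simp only [deg_single]
  simp

/-- The divisor `D₀ - 12 w` of degree `0`. -/
noncomputable def D00 (w : Gr.Point) : Gr.Div0 := ⟨D0 - Finsupp.single w 12, by
  change Gr.deg _ = 0
  rw [deg_sub, deg_D0, deg_single]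
  norm_num⟩

lemma D00_add (w : Gr.Point) (m : ℤ) :
    (D00 w : Gr.Div) + Finsupp.single w m = D0 + Finsupp.single w (m - 12) := by
  have h : Finsupp.single w m = Finsupp.single w (m - 12) + Finsupp.single w 12 := by
    rw [← Finsupp.single_add]
    congr 1
    ring
  rw [h]
  change D0 - Finsupp.single w 12 + _ = _
  abel

lemma mem_W (w : Gr.Point) : Gr.cls (D00 w) ∈ Gr.W w rect := by
  refine ⟨D00 w, rfl, ?_⟩
  rintro ⟨i, j⟩ hc
  obtain ⟨hi, hj⟩ := mem_rect.1 hc
  simp only at hi hj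
  rw [genus_Gr, D00_add, le_rank_iff]
  simp only
  interval_cases i
  · have h1 : Gr.RankCond (D0 - Finsupp.single w 1) 0 :=
      RankCond.sub_eff (k := 0) (l := 1) (by simpa using rankCond_D0)
        (Finsupp.single_nonneg.2 zero_le_one) (by rw [deg_single]; rfl)
    have h2 := RankCond.add_eff h1 (T := Finsupp.single w (9 - (j : ℤ)))
      (Finsupp.single_nonneg.2 (by omega))
    have h3 : D0 - Finsupp.single w 1 + Finsupp.single w (9 - (j : ℤ)) =
        D0 + Finsupp.single w (21 - (j : ℤ) + ((0 : ℕ) : ℤ) - 1 - 12) := by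
      have : (21 - (j : ℤ) + ((0 : ℕ) : ℤ) - 1 - 12) = (9 - (j : ℤ)) - 1 := by push_cast; ring
      have h4 : Finsupp.single w ((9 - (j : ℤ)) - 1) =
          Finsupp.single w (9 - (j : ℤ)) - Finsupp.single w 1 := Finsupp.single_sub _ _ _
      rw [this, h4]
      abel
    rwa [h3] at h2
  · have h2 := RankCond.add_eff rankCond_D0 (T := Finsupp.single w (9 - (j : ℤ)))
      (Finsupp.single_nonneg.2 (by omega))
    have h3 : (21 - (j : ℤ) + ((1 : ℕ) : ℤ) - 1 - 12) = 9 - (j : ℤ) := by push_cast; ring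
    rwa [h3]

lemma isolated_W (w : Gr.Point) (P : Gr.Pic0) (hP : P ∈ Gr.W w rect)
    (h : P ∈ nbhd (Gr.cls (D00 w)) (1 / 100)) : P = Gr.cls (D00 w) := by
  obtain ⟨D, rfl, hD⟩ := hP
  have h1 := hD (1, 9) (mem_rect.2 ⟨by norm_num, by norm_num⟩)
  rw [genus_Gr, le_rank_iff] at h1
  have h2 : (21 - (((1, 9) : ℕ × ℕ).2 : ℤ) + (((1, 9) : ℕ × ℕ).1 : ℤ) - 1) = 12 := by norm_num
  rw [h2] at h1
  refine isolated_aux (T := Finsupp.single w 12) ?_ h h1
  rw [D00_add]
  simp

/-- The class of `D₀ - 12 w` is a point of `W^λ(Γ, w)`, `λ = (10, 10)`, of local dimension `0`,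
whereas `g - |λ| = 1`. -/
theorem hasLocalDim_zero (w : Gr.Point) : HasLocalDim (Gr.W w rect) (Gr.cls (D00 w)) 0 :=
  hasLocalDim_zero_of_isolated (mem_W w) (isOpen_nbhd _)
    (mem_nbhd _ (by norm_num : (0 : ℝ) < 1 / 100)) fun P hP => isolated_W w P hP.1 hP.2

/-- The main result. -/
theorem main : ∃ (Γ : MetricGraph) (lam : YoungDiagram), Γ.genus = 21 ∧ lam.card = 20 ∧
    ∀ w : Γ.Point, ∃ P ∈ Γ.W w lam, HasLocalDim (Γ.W w lam) P 0 :=
  ⟨Gr, rect, genus_Gr, card_rect, fun w => ⟨Gr.cls (D00 w), mem_W w, hasLocalDim_zero w⟩⟩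

end Pool.Agent.TropBN
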