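import Pool.Agent.TropBN.Defs

/-!
# First lemmas on divisors and chains, and the statements used for the Abel-Jacobi map
-/

namespace Pool.Agent.TropBN

namespace MetricGraph

variable (Γ : MetricGraph)

lemma deg_add (D D' : Γ.Div) : Γ.deg (D + D') = Γ.deg D + Γ.deg D' := by
  unfold deg
  exact Finsupp.sum_add_index' (fun _ => rfl) (fun _ _ _ => rfl)

lemma deg_zero : Γ.deg 0 = 0 := by simp [deg]

lemma deg_neg (D : Γ.Div) : Γ.deg (-D) = -Γ.deg D := by
  have := Γ.deg_add D (-D)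
  rw [add_neg_cancel, deg_zero] at this
  omega

lemma deg_sub (D D' : Γ.Div) : Γ.deg (D - D') = Γ.deg D - Γ.deg D' := by
  rw [sub_eq_add_neg, deg_add, deg_neg, sub_eq_add_neg]

lemma deg_single (x : Γ.Point) (n : ℤ) : Γ.deg (Finsupp.single x n) = n := by
  simp [deg]

lemma degOn_add (e : Γ.E) (D D' : Γ.Div) : Γ.degOn e (D + D') = Γ.degOn e D + Γ.degOn e D' := by
  unfold degOn
  exact Finsupp.sum_add_index' (fun _ => by simp) (fun _ _ _ => by ring)

lemma degOn_zero (e : Γ.E) : Γ.degOn e 0 = 0 := by simp [degOn]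

lemma degOn_neg (e : Γ.E) (D : Γ.Div) : Γ.degOn e (-D) = -Γ.degOn e D := by
  have := Γ.degOn_add e D (-D)
  rw [add_neg_cancel, degOn_zero] at this
  omega

lemma degOn_sub (e : Γ.E) (D D' : Γ.Div) : Γ.degOn e (D - D') = Γ.degOn e D - Γ.degOn e D' := by
  rw [sub_eq_add_neg, degOn_add, degOn_neg, sub_eq_add_neg]

lemma degOn_single (e : Γ.E) (x : Γ.Point) (n : ℤ) :
    Γ.degOn e (Finsupp.single x n) = n * Γ.onEdge e x := by
  simp [degOn]

lemma momOn_add (e : Γ.E) (D D' : Γ.Div) : Γ.momOn e (D + D') = Γ.momOn e D + Γ.momOn e D' := by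
  unfold momOn
  exact Finsupp.sum_add_index' (fun _ => by simp) (fun _ _ _ => by push_cast; ring)

lemma momOn_zero (e : Γ.E) : Γ.momOn e 0 = 0 := by simp [momOn]

lemma momOn_neg (e : Γ.E) (D : Γ.Div) : Γ.momOn e (-D) = -Γ.momOn e D := by
  have := Γ.momOn_add e D (-D)
  rw [add_neg_cancel, momOn_zero] at this
  linarith

lemma momOn_sub (e : Γ.E) (D D' : Γ.Div) : Γ.momOn e (D - D') = Γ.momOn e D - Γ.momOn e D' := by
  rw [sub_eq_add_neg, momOn_add, momOn_neg, sub_eq_add_neg]

lemma momOn_single (e : Γ.E) (x : Γ.Point) (n : ℤ) :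
    Γ.momOn e (Finsupp.single x n) = n * Γ.remOn e x := by
  simp [momOn]

variable {Γ}

lemma IsBoundary.add {s s' : Γ.E → ℤ} {D D' : Γ.Div} (h : Γ.IsBoundary s D)
    (h' : Γ.IsBoundary s' D') : Γ.IsBoundary (s + s') (D + D') := by
  intro v
  have e1 := h v
  have e2 := h' v
  rw [Finsupp.add_apply, e1, e2]
  have : ∀ (a b c d : ℤ), a - b + (c - d) = (a + c) - (b + d) := by intros; ring
  rw [this, ← Finset.sum_add_distrib, ← Finset.sum_add_distrib]
  congr 1
  · apply Finset.sum_congr rfl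
    intro e _
    split_ifs with hh
    · rw [degOn_add, Pi.add_apply]; ring
    · rfl
  · apply Finset.sum_congr rfl
    intro e _
    split_ifs with hh
    · rfl
    · rfl

lemma IsBoundary.neg {s : Γ.E → ℤ} {D : Γ.Div} (h : Γ.IsBoundary s D) :
    Γ.IsBoundary (-s) (-D) := by
  intro v
  have e1 := h v
  rw [Finsupp.neg_apply, e1]
  rw [neg_sub, sub_eq_neg_add, ← Finset.sum_neg_distrib, sub_eq_add_neg, ← Finset.sum_neg_distrib]
  congr 1
  · apply Finset.sum_congr rfl
    intro e _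
    split_ifs with hh
    · rw [degOn_neg, Pi.neg_apply]; ring
    · rfl
  · apply Finset.sum_congr rfl
    intro e _
    split_ifs with hh
    · rw [Pi.neg_apply]; ring
    · rfl

lemma IsBoundary.sub {s s' : Γ.E → ℤ} {D D' : Γ.Div} (h : Γ.IsBoundary s D)
    (h' : Γ.IsBoundary s' D') : Γ.IsBoundary (s - s') (D - D') := by
  rw [sub_eq_add_neg, sub_eq_add_neg]
  exact h.add h'.neg

lemma isBoundary_zero : Γ.IsBoundary 0 0 := by
  intro v
  simp [degOn_zero]

lemma integral_add (s s' : Γ.E → ℤ) (D D' : Γ.Div) :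
    Γ.integral (s + s') (D + D') = Γ.integral s D + Γ.integral s' D' := by
  funext e
  simp only [integral, Pi.add_apply, momOn_add]
  push_cast
  ring

lemma integral_neg (s : Γ.E → ℤ) (D : Γ.Div) :
    Γ.integral (-s) (-D) = -Γ.integral s D := by
  funext e
  simp only [integral, Pi.neg_apply, momOn_neg]
  push_cast
  ring

lemma integral_sub (s s' : Γ.E → ℤ) (D D' : Γ.Div) :
    Γ.integral (s - s') (D - D') = Γ.integral s D - Γ.integral s' D' := by
  rw [sub_eq_add_neg, sub_eq_add_neg, integral_add, integral_neg, sub_eq_add_neg]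

end MetricGraph

end Pool.Agent.TropBN
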