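import Pool.Agent.TropBN.Basic

/-!
# Block C1: every divisor of degree `0` is the boundary of an integral chain
-/

namespace Pool.Agent.TropBN

namespace MetricGraph

variable (Γ : MetricGraph)

namespace C1

/-- the divergence of an integral function on the edges -/
def dv : (Γ.E → ℤ) →+ (Γ.V → ℤ) where
  toFun s := fun v => ∑ e, (if Γ.tgt e = v then s e else 0) - ∑ e, (if Γ.src e = v then s e else 0)
  map_zero' := by
    funext v
    simp
  map_add' s s' := by
    funext v
    have h : ∀ (P : Γ.E → Prop) [DecidablePred P], (∑ e, if P e then (s + s') e else 0) =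
        (∑ e, if P e then s e else 0) + ∑ e, if P e then s' e else 0 := by
      intro P _
      rw [← Finset.sum_add_distrib]
      apply Finset.sum_congr rfl
      intro e _
      split_ifs <;> simp
    simp only [Pi.add_apply] at h ⊢
    rw [h, h]
    ring

theorem dv_apply (s : Γ.E → ℤ) (v : Γ.V) : dv Γ s v =
    ∑ e, (if Γ.tgt e = v then s e else 0) - ∑ e, (if Γ.src e = v then s e else 0) := rfl

theorem dv_single (e : Γ.E) : dv Γ (Pi.single e 1) =
    Pi.single (Γ.tgt e) 1 - Pi.single (Γ.src e) 1 := by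
  funext v
  rw [dv_apply, Pi.sub_apply]
  have h : ∀ (P : Γ.E → Prop) [DecidablePred P],
      (∑ e', if P e' then (Pi.single e (1 : ℤ) : Γ.E → ℤ) e' else 0) = if P e then 1 else 0 := by
    intro P _
    rw [Finset.sum_eq_single e]
    · simp
    · intro e' _ hne
      rw [Pi.single_eq_of_ne hne]
      simp
    · intro hn
      exact absurd (Finset.mem_univ _) hn
  rw [h, h]
  congr 1
  · by_cases hv : Γ.tgt e = v
    · subst hv
      simp
    · rw [if_neg hv, Pi.single_eq_of_ne (Ne.symm hv)]
  · by_cases hv : Γ.src e = v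
    · subst hv
      simp
    · rw [if_neg hv, Pi.single_eq_of_ne (Ne.symm hv)]

theorem diff_mem (u v : Γ.V) :
    (Pi.single u 1 - Pi.single v 1 : Γ.V → ℤ) ∈ (dv Γ).range := by
  have h := Γ.conn u v
  induction h with
  | rel a b h =>
    obtain ⟨e, rfl, rfl⟩ := h
    refine ⟨-Pi.single e 1, ?_⟩
    rw [map_neg, dv_single]
    abel
  | refl a =>
    rw [sub_self]
    exact zero_mem _
  | symm a b _ ih =>
    have := neg_mem ih
    rwa [neg_sub] at this
  | trans a b c _ _ ih1 ih2 =>
    have := add_mem ih1 ih2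
    rwa [sub_add_sub_cancel] at this

theorem exists_dv (r : Γ.V → ℤ) (hr : ∑ v, r v = 0) : ∃ s, dv Γ s = r := by
  obtain ⟨v0⟩ := Γ.nonempty
  have h1 : ∑ v, r v • (Pi.single v 1 - Pi.single v0 1 : Γ.V → ℤ) ∈ (dv Γ).range :=
    sum_mem fun v _ => zsmul_mem (diff_mem Γ v v0) _
  have h2 : ∑ v, r v • (Pi.single v 1 - Pi.single v0 1 : Γ.V → ℤ) = r := by
    have h3 : ∑ v, r v • (Pi.single v 1 - Pi.single v0 1 : Γ.V → ℤ) =
        ∑ v, r v • (Pi.single v 1 : Γ.V → ℤ) - (∑ v, r v) • (Pi.single v0 1 : Γ.V → ℤ) := by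
      rw [Finset.sum_smul, ← Finset.sum_sub_distrib]
      exact Finset.sum_congr rfl fun v _ => smul_sub _ _ _
    rw [h3, hr, zero_smul, sub_zero]
    funext w
    rw [Finset.sum_apply, Finset.sum_eq_single w]
    · simp
    · intro v _ hne
      simp [Pi.single_eq_of_ne (Ne.symm hne)]
    · intro hn
      exact absurd (Finset.mem_univ _) hn
  rw [h2] at h1
  exact h1

theorem point_cases (x : Γ.Point) : (∃ v, x = Γ.vert v) ∨ ∃ e t, x = Γ.inner e t := by
  rcases x with v | ⟨e, t⟩
  · exact Or.inl ⟨v, rfl⟩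
  · exact Or.inr ⟨e, t, rfl⟩

theorem onEdge_vert (e : Γ.E) (v : Γ.V) : Γ.onEdge e (Γ.vert v) = 0 := rfl

theorem onEdge_inner (e e' : Γ.E) (t : Set.Ioo (0 : ℝ) (Γ.len e')) :
    Γ.onEdge e (Γ.inner e' t) = if e' = e then 1 else 0 := rfl

theorem deg_eq (D : Γ.Div) : Γ.deg D = ∑ v, D (Γ.vert v) + ∑ e, Γ.degOn e D := by
  classical
  induction D using Finsupp.induction_linear with
  | zero => simp [deg_zero, degOn_zero]
  | add D D' ih ih' =>
    rw [deg_add, ih, ih']
    have h1 : ∑ v, (D + D') (Γ.vert v) = ∑ v, D (Γ.vert v) + ∑ v, D' (Γ.vert v) := by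
      rw [← Finset.sum_add_distrib]
      rfl
    have h2 : ∑ e, Γ.degOn e (D + D') = ∑ e, Γ.degOn e D + ∑ e, Γ.degOn e D' := by
      rw [← Finset.sum_add_distrib]
      exact Finset.sum_congr rfl fun e _ => Γ.degOn_add e D D'
    rw [h1, h2]
    ring
  | single x n =>
    rw [deg_single]
    rcases point_cases Γ x with ⟨v, rfl⟩ | ⟨e, t, rfl⟩
    · have h1 : ∑ w, (Finsupp.single (Γ.vert v) n) (Γ.vert w) = n := by
        rw [Finset.sum_eq_single v]
        · exact Finsupp.single_eq_same
        · intro w _ hne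
          apply Finsupp.single_eq_of_ne
          intro h
          exact hne (Sum.inl_injective h)
        · intro hn
          exact absurd (Finset.mem_univ _) hn
      have h2 : ∑ e, Γ.degOn e (Finsupp.single (Γ.vert v) n) = 0 := by
        apply Finset.sum_eq_zero
        intro e _
        rw [degOn_single, onEdge_vert, mul_zero]
      rw [h1, h2, add_zero]
    · have h1 : ∑ w, (Finsupp.single (Γ.inner e t) n) (Γ.vert w) = 0 := by
        apply Finset.sum_eq_zero
        intro w _
        apply Finsupp.single_eq_of_ne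
        intro h
        cases h
      have h2 : ∑ e', Γ.degOn e' (Finsupp.single (Γ.inner e t) n) = n := by
        rw [Finset.sum_eq_single e]
        · rw [degOn_single, onEdge_inner, if_pos rfl, mul_one]
        · intro e' _ hne
          rw [degOn_single, onEdge_inner, if_neg (Ne.symm hne), mul_zero]
        · intro hn
          exact absurd (Finset.mem_univ _) hn
      rw [h1, h2, zero_add]

end C1

/-- Every divisor of degree `0` is the boundary of an integral chain. -/
theorem exists_isBoundary (D : Γ.Div) (hD : Γ.deg D = 0) : ∃ s : Γ.E → ℤ, Γ.IsBoundary s D := by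
  obtain ⟨s, hs⟩ := C1.exists_dv Γ
    (fun v => D (Γ.vert v) + ∑ e, if Γ.tgt e = v then Γ.degOn e D else 0) (by
      rw [Finset.sum_add_distrib, Finset.sum_comm]
      simp only [Finset.sum_ite_eq, Finset.mem_univ, if_true]
      rw [← C1.deg_eq, hD])
  refine ⟨s, fun v => ?_⟩
  have h := congrFun hs v
  rw [C1.dv_apply] at h
  have h1 : ∑ e, (if Γ.tgt e = v then s e - Γ.degOn e D else 0) =
      ∑ e, (if Γ.tgt e = v then s e else 0) - ∑ e, (if Γ.tgt e = v then Γ.degOn e D else 0) := by
    rw [← Finset.sum_sub_distrib]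
    apply Finset.sum_congr rfl
    intro e _
    split_ifs <;> simp
  rw [h1]
  linarith

end MetricGraph

end Pool.Agent.TropBN
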