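import Pool.Agent.TropBN.Basic

/-!
# The boundary of a chain has degree zero
-/

namespace Pool.Agent.TropBN

namespace MetricGraph

variable {Γ : MetricGraph}

/-- The degree is the sum over the vertices plus the sum over the interior points of edges. -/
theorem deg_eq_sum (D : Γ.Div) : Γ.deg D = ∑ v, D (Γ.vert v) + ∑ e, Γ.degOn e D := by
  induction D using Finsupp.induction_linear with
  | zero => simp [deg_zero, degOn_zero]
  | add f g hf hg =>
    simp only [deg_add, degOn_add, hf, hg, Finsupp.add_apply, Finset.sum_add_distrib]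
    ring
  | single x n =>
    classical
    have key : ∀ w : Γ.V, (Finsupp.single x n : Γ.Div) (Γ.vert w) =
        if x = Γ.vert w then n else 0 := fun w => Finsupp.single_apply
    simp only [deg_single, degOn_single, key]
    have h4 : n = n * (∑ w, (if x = Γ.vert w then 1 else 0) + ∑ e, Γ.onEdge e x) := by
      have h5 : ∑ w, (if x = Γ.vert w then (1 : ℤ) else 0) + ∑ e, Γ.onEdge e x = 1 := by
        rcases x with v | ⟨e, t⟩
        · have h7 : ∑ e, Γ.onEdge e (Sum.inl v) = 0 := by simp [onEdge]
          refine Eq.trans (congrArg₂ (· + ·) ?_ h7) (add_zero 1)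
          refine (Finset.sum_eq_single v ?_ ?_).trans (if_pos rfl)
          · intro w _ hw
            exact if_neg fun h => hw (Sum.inl_injective h).symm
          · intro hv
            exact absurd (Finset.mem_univ v) hv
        · have h7 : ∑ e', Γ.onEdge e' (Sum.inr ⟨e, t⟩) = 1 := by simp [onEdge]
          refine Eq.trans (congrArg₂ (· + ·) ?_ h7) (zero_add 1)
          refine Finset.sum_eq_zero fun w _ => if_neg fun h => ?_
          exact absurd h Sum.inr_ne_inl
      rw [h5, mul_one]
    conv_lhs => rw [h4]
    rw [mul_add, Finset.mul_sum, Finset.mul_sum]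
    simp only [mul_ite, mul_one, mul_zero]

/-- The boundary of an integral chain has degree `0`. -/
theorem deg_eq_zero_of_isBoundary {s : Γ.E → ℤ} {D : Γ.Div} (h : Γ.IsBoundary s D) :
    Γ.deg D = 0 := by
  have h1 : ∑ v, D (Γ.vert v) = ∑ v, (∑ e, (if Γ.tgt e = v then s e - Γ.degOn e D else 0) -
      ∑ e, (if Γ.src e = v then s e else 0)) := Finset.sum_congr rfl fun v _ => h v
  rw [deg_eq_sum, h1, Finset.sum_sub_distrib, Finset.sum_comm, Finset.sum_comm (f := fun v e =>
    if Γ.src e = v then s e else 0)]
  simp only [Finset.sum_ite_eq, Finset.mem_univ, if_true, Finset.sum_sub_distrib]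
  ring

end MetricGraph

end Pool.Agent.TropBN
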