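import Pool.Agent.TropBN.Basic

/-!
# Block C3: the divisor of a rational function is the boundary of the chain `-df`
-/

namespace Pool.Agent.TropBN

open Filter Topology

namespace MetricGraph

section EdgeLemma

lemma germ_unique {g : ℝ → ℝ} {a m m' : ℝ} (h1 : ∀ᶠ h in 𝓝[>] (0 : ℝ), g h = a + m * h)
    (h2 : ∀ᶠ h in 𝓝[>] (0 : ℝ), g h = a + m' * h) : m = m' := by
  obtain ⟨h, ⟨e1, e2⟩, e3⟩ := ((h1.and h2).and self_mem_nhdsWithin).exists
  have hpos : (0 : ℝ) < h := e3
  rw [e1] at e2
  have : m * h = m' * h := by linarith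
  exact mul_right_cancel₀ hpos.ne' this

/-- Germs of the model function `t ↦ a + b t + ∑ c i * max (t - x i) 0`. -/
lemma model_fwd {ι : Type*} (I : Finset ι) (c x : ι → ℝ) (a b t : ℝ) :
    ∀ᶠ h in 𝓝[>] (0 : ℝ),
      a + b * (t + h) + ∑ i ∈ I, c i * max (t + h - x i) 0 =
        (a + b * t + ∑ i ∈ I, c i * max (t - x i) 0) +
          (b + ∑ i ∈ I, if x i ≤ t then c i else 0) * h := by
  have key : ∀ i ∈ I, ∀ᶠ h in 𝓝[>] (0 : ℝ),
      max (t + h - x i) 0 = max (t - x i) 0 + (if x i ≤ t then 1 else 0) * h := by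
    intro i _
    by_cases hx : x i ≤ t
    · filter_upwards [self_mem_nhdsWithin] with h hh
      have hh' : (0 : ℝ) < h := hh
      rw [max_eq_left (by linarith), max_eq_left (by linarith), if_pos hx]
      ring
    · have hx' : t < x i := not_le.1 hx
      have : ∀ᶠ h in 𝓝[>] (0 : ℝ), h < x i - t :=
        mem_nhdsWithin_of_mem_nhds (Iio_mem_nhds (by linarith))
      filter_upwards [this] with h hh
      rw [max_eq_right (by linarith), max_eq_right (by linarith), if_neg hx]
      ring
  have key' := (Filter.eventually_all_finset I).2 key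
  filter_upwards [key'] with h hh
  have : ∑ i ∈ I, c i * max (t + h - x i) 0 =
      ∑ i ∈ I, c i * max (t - x i) 0 + (∑ i ∈ I, if x i ≤ t then c i else 0) * h := by
    rw [Finset.sum_mul, ← Finset.sum_add_distrib]
    apply Finset.sum_congr rfl
    intro i hi
    rw [hh i hi]
    split_ifs <;> ring
  rw [this]
  ring

lemma model_bwd {ι : Type*} (I : Finset ι) (c x : ι → ℝ) (a b t : ℝ) :
    ∀ᶠ h in 𝓝[>] (0 : ℝ),
      a + b * (t - h) + ∑ i ∈ I, c i * max (t - h - x i) 0 =
        (a + b * t + ∑ i ∈ I, c i * max (t - x i) 0) +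
          (-b - ∑ i ∈ I, if x i < t then c i else 0) * h := by
  have key : ∀ i ∈ I, ∀ᶠ h in 𝓝[>] (0 : ℝ),
      max (t - h - x i) 0 = max (t - x i) 0 - (if x i < t then 1 else 0) * h := by
    intro i _
    by_cases hx : x i < t
    · have : ∀ᶠ h in 𝓝[>] (0 : ℝ), h < t - x i :=
        mem_nhdsWithin_of_mem_nhds (Iio_mem_nhds (by linarith))
      filter_upwards [this] with h hh
      rw [max_eq_left (by linarith), max_eq_left (by linarith), if_pos hx]
      ring
    · have hx' : t ≤ x i := not_lt.1 hx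
      filter_upwards [self_mem_nhdsWithin] with h hh
      have hh' : (0 : ℝ) < h := hh
      rw [max_eq_right (by linarith), max_eq_right (by linarith), if_neg hx]
      ring
  have key' := (Filter.eventually_all_finset I).2 key
  filter_upwards [key'] with h hh
  have : ∑ i ∈ I, c i * max (t - h - x i) 0 =
      ∑ i ∈ I, c i * max (t - x i) 0 - (∑ i ∈ I, if x i < t then c i else 0) * h := by
    rw [Finset.sum_mul, ← Finset.sum_sub_distrib]
    apply Finset.sum_congr rfl
    intro i hi
    rw [hh i hi]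
    split_ifs <;> ring
  rw [this]
  ring

/-- The edge lemma: a function on `[0, l]` with integer germs and finitely many bends `c i` at
the points `x i`. -/
theorem edge_lemma {ι : Type*} (I : Finset ι) (c : ι → ℤ) (x : ι → ℝ) {l : ℝ} (hl : 0 < l)
    (g : ℝ → ℝ) (p q : ℝ → ℤ)
    (hp : ∀ t, 0 ≤ t → t < l → ∀ᶠ h in 𝓝[>] (0 : ℝ), g (t + h) = g t + p t * h)
    (hq : ∀ t, 0 < t → t ≤ l → ∀ᶠ h in 𝓝[>] (0 : ℝ), g (t - h) = g t + q t * h)
    (hc : ∀ i ∈ I, c i ≠ 0 → 0 < x i ∧ x i < l)
    (hpq : ∀ t, 0 < t → t < l → p t + q t = ∑ i ∈ I, if x i = t then c i else 0) :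
    g l = g 0 + p 0 * l + ∑ i ∈ I, (c i : ℝ) * (l - x i) ∧ q l = -(p 0) - ∑ i ∈ I, c i := by
  -- the model function
  set R : ℝ → ℝ := fun t => g 0 + p 0 * t + ∑ i ∈ I, (c i : ℝ) * max (t - x i) 0 with hR
  have hRf : ∀ t, ∀ᶠ h in 𝓝[>] (0 : ℝ), R (t + h) = R t +
      ((p 0 : ℝ) + ∑ i ∈ I, if x i ≤ t then (c i : ℝ) else 0) * h := fun t =>
    model_fwd I (fun i => (c i : ℝ)) x (g 0) (p 0) t
  have hRb : ∀ t, ∀ᶠ h in 𝓝[>] (0 : ℝ), R (t - h) = R t +
      (-(p 0 : ℝ) - ∑ i ∈ I, if x i < t then (c i : ℝ) else 0) * h := fun t =>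
    model_bwd I (fun i => (c i : ℝ)) x (g 0) (p 0) t
  have hR0 : R 0 = g 0 := by
    have : ∑ i ∈ I, (c i : ℝ) * max (0 - x i) 0 = 0 := by
      apply Finset.sum_eq_zero
      intro i hi
      by_cases h0 : c i = 0
      · simp [h0]
      · have := (hc i hi h0).1
        rw [max_eq_right (by linarith)]; ring
    simp only [hR]
    rw [this]; ring
  -- if `g = R` on `[0, T)`, then it is so at `T` and `q T` is as expected
  have stepB : ∀ T, 0 < T → T ≤ l → (∀ t, 0 ≤ t → t < T → g t = R t) →
      g T = R T ∧ (q T : ℝ) = -(p 0 : ℝ) - ∑ i ∈ I, if x i < T then (c i : ℝ) else 0 := by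
    intro T hT hTl hlt
    have e1 := hq T hT hTl
    have e2 := hRb T
    have e3 : ∀ᶠ h in 𝓝[>] (0 : ℝ), h < T := mem_nhdsWithin_of_mem_nhds (Iio_mem_nhds hT)
    set m : ℝ := -(p 0 : ℝ) - ∑ i ∈ I, if x i < T then (c i : ℝ) else 0 with hm
    have e4 : ∀ᶠ h in 𝓝[>] (0 : ℝ), g T - R T = (m - q T) * h := by
      filter_upwards [e1, e2, e3, self_mem_nhdsWithin] with h h1 h2 h3 h4
      have h4' : (0 : ℝ) < h := h4
      have := hlt (T - h) (by linarith) (by linarith)
      rw [h1, h2] at this
      linarith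
    have e5 : g T - R T = 0 := by
      have t1 : Tendsto (fun h : ℝ => (m - q T) * h) (𝓝[>] 0) (𝓝 ((m - q T) * 0)) :=
        ((continuous_const.mul continuous_id).tendsto 0).mono_left nhdsWithin_le_nhds
      rw [mul_zero] at t1
      have t2 : Tendsto (fun _ : ℝ => g T - R T) (𝓝[>] 0) (𝓝 0) :=
        t1.congr' (e4.mono fun h hh => hh.symm)
      exact tendsto_nhds_unique tendsto_const_nhds t2
    refine ⟨by linarith, ?_⟩
    obtain ⟨h, h1, h2⟩ := (e4.and self_mem_nhdsWithin).exists
    have h2' : (0 : ℝ) < h := h2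
    rw [e5] at h1
    have : m - q T = 0 := by
      rcases mul_eq_zero.1 h1.symm with h | h
      · exact h
      · exact absurd h h2'.ne'
    linarith
  -- `g = R` on `[0, l]`
  have main : ∀ t, 0 ≤ t → t ≤ l → g t = R t := by
    by_contra hcon
    push Not at hcon
    set B : Set ℝ := {t | 0 ≤ t ∧ t ≤ l ∧ g t ≠ R t} with hB
    have hBne : B.Nonempty := by
      obtain ⟨t, h1, h2, h3⟩ := hcon
      exact ⟨t, h1, h2, h3⟩
    have hBb : BddBelow B := ⟨0, fun t ht => ht.1⟩
    set T := sInf B with hT
    have hT0 : 0 ≤ T := le_csInf hBne fun t ht => ht.1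
    have hTl : T ≤ l := by
      obtain ⟨t, ht⟩ := hBne
      exact (csInf_le hBb ht).trans ht.2.1
    have hbelow : ∀ t, 0 ≤ t → t < T → g t = R t := by
      intro t h1 h2
      by_contra h3
      exact absurd (csInf_le hBb (show t ∈ B from ⟨h1, by linarith, h3⟩)) (not_le.2 h2)
    have hTeq : g T = R T := by
      rcases hT0.eq_or_lt with h | h
      · rw [← h, hR0]
      · exact (stepB T h hTl hbelow).1
    have hTl' : T < l := by
      rcases hTl.eq_or_lt with h | h
      · exfalso
        obtain ⟨t, ht⟩ := hBne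
        have h1 : T ≤ t := csInf_le hBb ht
        have h2 : t = T := le_antisymm (ht.2.1.trans h.ge) h1
        exact ht.2.2 (h2 ▸ hTeq)
      · exact h
    -- the forward slope at `T`
    have hpT : (p T : ℝ) = (p 0 : ℝ) + ∑ i ∈ I, if x i ≤ T then (c i : ℝ) else 0 := by
      rcases hT0.eq_or_lt with h | h
      · rw [← h]
        have : ∑ i ∈ I, (if x i ≤ 0 then (c i : ℝ) else 0) = 0 := by
          apply Finset.sum_eq_zero
          intro i hi
          split_ifs with hx
          · by_contra h0
            have h0' : c i ≠ 0 := fun h => h0 (by rw [h]; simp)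
            exact absurd (hc i hi h0').1 (not_lt.2 hx)
          · rfl
        rw [this, add_zero]
      · have h1 := (stepB T h hTl hbelow).2
        have h2 : ((p T : ℝ) + (q T : ℝ)) = ∑ i ∈ I, if x i = T then (c i : ℝ) else 0 := by
          have := hpq T h hTl'
          have h3 : ((p T + q T : ℤ) : ℝ) = ((∑ i ∈ I, if x i = T then c i else 0 : ℤ) : ℝ) := by
            rw [this]
          push_cast at h3
          exact h3
        have h3 : ∑ i ∈ I, (if x i ≤ T then (c i : ℝ) else 0) =
            ∑ i ∈ I, (if x i < T then (c i : ℝ) else 0) +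
              ∑ i ∈ I, (if x i = T then (c i : ℝ) else 0) := by
          rw [← Finset.sum_add_distrib]
          apply Finset.sum_congr rfl
          intro i _
          rcases lt_trichotomy (x i) T with hx | hx | hx
          · rw [if_pos hx.le, if_pos hx, if_neg hx.ne, add_zero]
          · rw [if_pos hx.le, if_neg hx.not_lt, if_pos hx, zero_add]
          · rw [if_neg (not_le.2 hx), if_neg (not_lt.2 hx.le), if_neg hx.ne', add_zero]
        rw [h3]
        linarith
    have e1 := hp T hT0 hTl'
    have e2 := hRf T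
    rw [← hpT] at e2
    have e3 : ∀ᶠ h in 𝓝[>] (0 : ℝ), g (T + h) = R (T + h) := by
      filter_upwards [e1, e2] with h h1 h2
      rw [h1, h2, hTeq]
    rw [eventually_nhdsWithin_iff, Metric.eventually_nhds_iff] at e3
    obtain ⟨ε, hε, he⟩ := e3
    obtain ⟨b, hbB, hb⟩ := exists_lt_of_csInf_lt hBne (show sInf B < T + ε by linarith)
    have hb1 : T ≤ b := csInf_le hBb hbB
    rcases hb1.eq_or_lt with h | h
    · exact hbB.2.2 (h ▸ hTeq)
    · have := he (y := b - T) (by
        rw [Real.dist_eq, sub_zero, abs_of_pos (by linarith)]; linarith) (by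
          show (0 : ℝ) < b - T
          linarith)
      rw [add_sub_cancel] at this
      exact hbB.2.2 this
  constructor
  · rw [main l hl.le le_rfl]
    simp only [hR]
    congr 1
    apply Finset.sum_congr rfl
    intro i hi
    by_cases h0 : c i = 0
    · simp [h0]
    · have := (hc i hi h0).2
      rw [max_eq_left (by linarith)]
  · have h1 := (stepB l hl le_rfl fun t h1 h2 => main t h1 h2.le).2
    have h2 : ∑ i ∈ I, (if x i < l then (c i : ℝ) else 0) = ∑ i ∈ I, (c i : ℝ) := by
      apply Finset.sum_congr rfl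
      intro i hi
      by_cases h0 : c i = 0
      · simp [h0]
      · rw [if_pos (hc i hi h0).2]
    rw [h2] at h1
    exact_mod_cast h1

end EdgeLemma

variable {Γ : MetricGraph}

lemma pt_zero (e : Γ.E) : Γ.pt e 0 = Γ.vert (Γ.src e) := by
  unfold pt
  rw [dif_pos le_rfl]

lemma pt_len (e : Γ.E) : Γ.pt e (Γ.len e) = Γ.vert (Γ.tgt e) := by
  unfold pt
  rw [dif_neg (not_le.2 (Γ.len_pos e)), dif_pos le_rfl]

lemma pt_inner (e : Γ.E) (t : Set.Ioo (0 : ℝ) (Γ.len e)) : Γ.pt e t = Γ.inner e t := by
  unfold pt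
  rw [dif_neg (not_le.2 t.2.1), dif_neg (not_le.2 t.2.2)]

/-- The divisor of a rational function `f` is the boundary of the chain `-df`. -/
theorem exists_isBoundary_of_isDivOf {f : Γ.Point → ℝ} {D : Γ.Div} (h : Γ.IsDivOf f D) :
    ∃ s : Γ.E → ℤ, Γ.IsBoundary s D ∧
      ∀ e, Γ.integral s D e = f (Γ.vert (Γ.src e)) - f (Γ.vert (Γ.tgt e)) := by
  obtain ⟨p, q, hp, hq, hD, hV⟩ := h
  have key : ∀ e, f (Γ.vert (Γ.tgt e)) = f (Γ.vert (Γ.src e)) + p e 0 * Γ.len e +
      Γ.momOn e D ∧ q e (Γ.len e) = -(p e 0) - Γ.degOn e D := by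
    intro e
    have hon : ∀ i : Γ.Point, Γ.onEdge e i ≠ 0 →
        ∃ t : Set.Ioo (0 : ℝ) (Γ.len e), i = Γ.inner e t := by
      intro i hi
      rcases i with v | ⟨e', t⟩
      · exact absurd rfl hi
      · by_cases he : e' = e
        · subst he
          exact ⟨t, rfl⟩
        · exact absurd (by simp [onEdge, he]) hi
    have hin : ∀ t : Set.Ioo (0 : ℝ) (Γ.len e), Γ.onEdge e (Γ.inner e t) = 1 := by
      intro t; simp [onEdge, inner]
    have hrem : ∀ t : Set.Ioo (0 : ℝ) (Γ.len e), Γ.remOn e (Γ.inner e t) = Γ.len e - t := by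
      intro t; simp [remOn, inner]
    have E := edge_lemma D.support (fun i => D i * Γ.onEdge e i)
      (fun i => Γ.len e - Γ.remOn e i) (Γ.len_pos e) (fun t => f (Γ.pt e t)) (p e) (q e)
      (fun t h1 h2 => hp e t h1 h2) (fun t h1 h2 => hq e t h1 h2)
      (by
        intro i _ hi
        have h1 : Γ.onEdge e i ≠ 0 := fun h => hi (by simp [h])
        obtain ⟨t, rfl⟩ := hon i h1
        simp only [hrem]
        exact ⟨by linarith [t.2.1], by linarith [t.2.2]⟩)
      (by
        intro t h1 h2
        have e1 := hD e ⟨t, h1, h2⟩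
        simp only at e1
        rw [← e1]
        symm
        rw [Finset.sum_eq_single (Γ.inner e ⟨t, h1, h2⟩)]
        · rw [if_pos (by rw [hrem]; simp), hin, mul_one]
        · intro i _ hne
          split_ifs with hx
          · by_contra h0
            have h3 : Γ.onEdge e i ≠ 0 := fun h => h0 (by simp [h])
            obtain ⟨t', rfl⟩ := hon i h3
            rw [hrem] at hx
            apply hne
            congr 1
            apply Subtype.ext
            show (t' : ℝ) = t
            linarith
          · rfl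
        · intro hns
          rw [Finsupp.notMem_support_iff.1 hns]
          simp)
    obtain ⟨E1, E2⟩ := E
    simp only [pt_zero, pt_len] at E1
    constructor
    · rw [E1]
      congr 1
      unfold momOn Finsupp.sum
      apply Finset.sum_congr rfl
      intro i _
      by_cases h0 : Γ.onEdge e i = 0
      · have : Γ.remOn e i = 0 := by
          rcases i with v | ⟨e', t⟩
          · rfl
          · by_cases he : e' = e
            · subst he; simp [onEdge] at h0
            · simp [remOn, he]
        simp [h0, this]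
      · obtain ⟨t, rfl⟩ := hon i h0
        simp only [hin, hrem]
        push_cast
        ring
    · rw [E2]
      rfl
  refine ⟨fun e => -(p e 0), ?_, ?_⟩
  · intro v
    rw [hV v, add_comm, sub_eq_add_neg, ← Finset.sum_neg_distrib]
    congr 1
    · apply Finset.sum_congr rfl
      intro e _
      split_ifs
      · exact (key e).2
      · rfl
    · apply Finset.sum_congr rfl
      intro e _
      split_ifs
      · simp
      · simp
  · intro e
    have := (key e).1
    unfold integral
    rw [this]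
    push_cast
    ring

end MetricGraph

end Pool.Agent.TropBN
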