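import Pool.Agent.TropBN.Basic

/-!
# Block C4: a chain whose integrals form a coboundary comes from a rational function
-/

namespace Pool.Agent.TropBN

open Filter Topology

namespace MetricGraph

variable (Γ : MetricGraph)

/-- `max (t - x) 0` at the interior point of the edge `e` at position `x` -/
noncomputable def ramp (e : Γ.E) (t : ℝ) : Γ.Point → ℝ
  | Sum.inl _ => 0
  | Sum.inr ⟨e', x⟩ => if e' = e then max (t - x) 0 else 0

open Classical in
/-- `1` at the interior points of the edge `e` at positions `≤ t` -/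
noncomputable def indLe (e : Γ.E) (t : ℝ) : Γ.Point → ℤ
  | Sum.inl _ => 0
  | Sum.inr ⟨e', x⟩ => if e' = e ∧ (x : ℝ) ≤ t then 1 else 0

open Classical in
/-- `1` at the interior points of the edge `e` at positions `< t` -/
noncomputable def indLt (e : Γ.E) (t : ℝ) : Γ.Point → ℤ
  | Sum.inl _ => 0
  | Sum.inr ⟨e', x⟩ => if e' = e ∧ (x : ℝ) < t then 1 else 0

/-- the function on the edge `e` -/
noncomputable def edgeFn (s : Γ.E → ℤ) (D : Γ.Div) (F : Γ.V → ℝ) (e : Γ.E) (t : ℝ) : ℝ :=
  F (Γ.src e) - s e * t + D.sum fun x n => (n : ℝ) * Γ.ramp e t x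

/-- the function -/
noncomputable def chainFn (s : Γ.E → ℤ) (D : Γ.Div) (F : Γ.V → ℝ) : Γ.Point → ℝ
  | Sum.inl v => F v
  | Sum.inr ⟨e, t⟩ => Γ.edgeFn s D F e t

variable {Γ}

theorem ramp_zero (e : Γ.E) (x : Γ.Point) : Γ.ramp e 0 x = 0 := by
  rcases x with v | ⟨e', x⟩
  · rfl
  · simp only [ramp]
    split_ifs
    · rw [zero_sub]
      exact max_eq_right (neg_nonpos.2 x.2.1.le)
    · rfl

theorem ramp_len (e : Γ.E) (x : Γ.Point) : Γ.ramp e (Γ.len e) x = Γ.remOn e x := by
  rcases x with v | ⟨e', x⟩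
  · rfl
  · simp only [ramp, remOn]
    split_ifs with h
    · subst h
      exact max_eq_left (sub_nonneg.2 x.2.2.le)
    · rfl

theorem edgeFn_zero (s : Γ.E → ℤ) (D : Γ.Div) (F : Γ.V → ℝ) (e : Γ.E) :
    Γ.edgeFn s D F e 0 = F (Γ.src e) := by
  unfold edgeFn
  have h : (D.sum fun x n => (n : ℝ) * Γ.ramp e 0 x) = 0 := by
    refine Finset.sum_eq_zero fun x _ => ?_
    change (D x : ℝ) * Γ.ramp e 0 x = 0
    rw [ramp_zero, mul_zero]
  rw [h]
  ring

theorem edgeFn_len {s : Γ.E → ℤ} {D : Γ.Div} {F : Γ.V → ℝ}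
    (hF : ∀ e, Γ.integral s D e = F (Γ.src e) - F (Γ.tgt e)) (e : Γ.E) :
    Γ.edgeFn s D F e (Γ.len e) = F (Γ.tgt e) := by
  have h : (D.sum fun x n => (n : ℝ) * Γ.ramp e (Γ.len e) x) = Γ.momOn e D := by
    refine Finset.sum_congr rfl fun x _ => ?_
    simp only [ramp_len]
  have h1 := hF e
  unfold integral at h1
  unfold edgeFn
  rw [h]
  linarith

theorem chainFn_pt {s : Γ.E → ℤ} {D : Γ.Div} {F : Γ.V → ℝ}
    (hF : ∀ e, Γ.integral s D e = F (Γ.src e) - F (Γ.tgt e)) (e : Γ.E) {t : ℝ} (h0 : 0 ≤ t)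
    (h1 : t ≤ Γ.len e) : Γ.chainFn s D F (Γ.pt e t) = Γ.edgeFn s D F e t := by
  unfold pt
  split_ifs with h2 h3
  · have h4 : t = 0 := le_antisymm h2 h0
    rw [h4, edgeFn_zero]
    rfl
  · have h4 : t = Γ.len e := le_antisymm h1 h3
    rw [h4, edgeFn_len hF]
    rfl
  · rfl

theorem ramp_fwd (e : Γ.E) (t : ℝ) (x : Γ.Point) :
    ∀ᶠ h in 𝓝[>] (0 : ℝ), Γ.ramp e (t + h) x = Γ.ramp e t x + Γ.indLe e t x * h := by
  rcases x with v | ⟨e', x⟩
  · exact Eventually.of_forall fun h => by simp [ramp, indLe]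
  · by_cases he : e' = e
    · by_cases hx : (x : ℝ) ≤ t
      · filter_upwards [self_mem_nhdsWithin] with h hh
        have hh' : 0 < h := hh
        simp only [ramp, indLe, he, if_true, true_and, hx]
        rw [max_eq_left (by linarith), max_eq_left (by linarith)]
        push_cast
        ring
      · have hx' : t < x := not_le.1 hx
        have h1 : ∀ᶠ h in 𝓝[>] (0 : ℝ), h < (x : ℝ) - t :=
          mem_nhdsWithin_of_mem_nhds (Iio_mem_nhds (sub_pos.2 hx'))
        filter_upwards [h1] with h hh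
        simp only [ramp, indLe, he, if_true, true_and, hx, if_false]
        rw [max_eq_right (by linarith), max_eq_right (by linarith)]
        push_cast
        ring
    · exact Eventually.of_forall fun h => by simp [ramp, indLe, he]

theorem ramp_bwd (e : Γ.E) (t : ℝ) (x : Γ.Point) :
    ∀ᶠ h in 𝓝[>] (0 : ℝ), Γ.ramp e (t - h) x = Γ.ramp e t x - Γ.indLt e t x * h := by
  rcases x with v | ⟨e', x⟩
  · exact Eventually.of_forall fun h => by simp [ramp, indLt]
  · by_cases he : e' = e
    · by_cases hx : (x : ℝ) < t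
      · have h1 : ∀ᶠ h in 𝓝[>] (0 : ℝ), h < t - (x : ℝ) :=
          mem_nhdsWithin_of_mem_nhds (Iio_mem_nhds (sub_pos.2 hx))
        filter_upwards [h1] with h hh
        simp only [ramp, indLt, he, if_true, true_and, hx]
        rw [max_eq_left (by linarith), max_eq_left (by linarith)]
        push_cast
        ring
      · have hx' : t ≤ x := not_lt.1 hx
        filter_upwards [self_mem_nhdsWithin] with h hh
        have hh' : 0 < h := hh
        simp only [ramp, indLt, he, if_true, true_and, hx, if_false]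
        rw [max_eq_right (by linarith), max_eq_right (by linarith)]
        push_cast
        ring
    · exact Eventually.of_forall fun h => by simp [ramp, indLt, he]

theorem edgeFn_fwd (s : Γ.E → ℤ) (D : Γ.Div) (F : Γ.V → ℝ) (e : Γ.E) (t : ℝ) :
    ∀ᶠ h in 𝓝[>] (0 : ℝ), Γ.edgeFn s D F e (t + h) = Γ.edgeFn s D F e t +
      ((-s e + D.sum fun x n => n * Γ.indLe e t x : ℤ) : ℝ) * h := by
  have h1 : ∀ᶠ h in 𝓝[>] (0 : ℝ), ∀ x ∈ D.support,
      Γ.ramp e (t + h) x = Γ.ramp e t x + Γ.indLe e t x * h :=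
    (Finset.eventually_all D.support).2 fun x _ => ramp_fwd e t x
  filter_upwards [h1] with h hh
  have h2 : (D.sum fun x n => (n : ℝ) * Γ.ramp e (t + h) x) =
      (D.sum fun x n => (n : ℝ) * Γ.ramp e t x) +
        ((D.sum fun x n => n * Γ.indLe e t x : ℤ) : ℝ) * h := by
    simp only [Finsupp.sum]
    push_cast
    rw [Finset.sum_mul, ← Finset.sum_add_distrib]
    refine Finset.sum_congr rfl fun x hx => ?_
    rw [hh x hx]
    ring
  unfold edgeFn
  rw [h2]
  push_cast
  ring

theorem edgeFn_bwd (s : Γ.E → ℤ) (D : Γ.Div) (F : Γ.V → ℝ) (e : Γ.E) (t : ℝ) :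
    ∀ᶠ h in 𝓝[>] (0 : ℝ), Γ.edgeFn s D F e (t - h) = Γ.edgeFn s D F e t +
      ((s e - D.sum fun x n => n * Γ.indLt e t x : ℤ) : ℝ) * h := by
  have h1 : ∀ᶠ h in 𝓝[>] (0 : ℝ), ∀ x ∈ D.support,
      Γ.ramp e (t - h) x = Γ.ramp e t x - Γ.indLt e t x * h :=
    (Finset.eventually_all D.support).2 fun x _ => ramp_bwd e t x
  filter_upwards [h1] with h hh
  have h2 : (D.sum fun x n => (n : ℝ) * Γ.ramp e (t - h) x) =
      (D.sum fun x n => (n : ℝ) * Γ.ramp e t x) -
        ((D.sum fun x n => n * Γ.indLt e t x : ℤ) : ℝ) * h := by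
    simp only [Finsupp.sum]
    push_cast
    rw [Finset.sum_mul, ← Finset.sum_sub_distrib]
    refine Finset.sum_congr rfl fun x hx => ?_
    rw [hh x hx]
    ring
  unfold edgeFn
  rw [h2]
  push_cast
  ring

theorem indLe_zero (e : Γ.E) (x : Γ.Point) : Γ.indLe e 0 x = 0 := by
  rcases x with v | ⟨e', x⟩
  · rfl
  · simp only [indLe]
    rw [if_neg]
    rintro ⟨-, h⟩
    exact absurd x.2.1 (not_lt.2 h)

theorem indLt_len (e : Γ.E) (x : Γ.Point) : Γ.indLt e (Γ.len e) x = Γ.onEdge e x := by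
  rcases x with v | ⟨e', x⟩
  · rfl
  · simp only [indLt, onEdge]
    by_cases h : e' = e
    · subst h
      rw [if_pos ⟨rfl, x.2.2⟩, if_pos rfl]
    · rw [if_neg (fun h' => h h'.1), if_neg h]

open Classical in
theorem indLe_sub_indLt (e : Γ.E) (t : Set.Ioo (0 : ℝ) (Γ.len e)) (x : Γ.Point) :
    Γ.indLe e t x - Γ.indLt e t x = if x = Γ.inner e t then 1 else 0 := by
  rcases x with v | ⟨e', x⟩
  · rw [if_neg]
    · rfl
    · intro h
      exact absurd h Sum.inl_ne_inr
  · by_cases he : e' = e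
    · subst he
      simp only [indLe, indLt, true_and]
      rcases lt_trichotomy (x : ℝ) t with h | h | h
      · rw [if_pos h.le, if_pos h, if_neg, sub_self]
        intro h'
        have h2 : x = t := by
          have h3 := Sum.inr_injective h'
          exact eq_of_heq (Sigma.mk.inj h3).2
        rw [h2] at h
        exact lt_irrefl _ h
      · rw [if_pos h.le, if_neg h.not_lt, if_pos, sub_zero]
        rw [Subtype.ext h]
        rfl
      · rw [if_neg (not_le.2 h), if_neg h.le.not_gt, if_neg, sub_self]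
        intro h'
        have h2 : x = t := by
          have h3 := Sum.inr_injective h'
          exact eq_of_heq (Sigma.mk.inj h3).2
        rw [h2] at h
        exact lt_irrefl _ h
    · simp only [indLe, indLt, he, false_and, if_false, sub_self]
      rw [if_neg]
      intro h'
      have h3 := Sum.inr_injective h'
      exact he (Sigma.mk.inj h3).1

/-- If the integrals of a chain with boundary `D` form a coboundary, then `D` is principal. -/
theorem exists_isDivOf {s : Γ.E → ℤ} {D : Γ.Div} {F : Γ.V → ℝ} (h : Γ.IsBoundary s D)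
    (hF : ∀ e, Γ.integral s D e = F (Γ.src e) - F (Γ.tgt e)) :
    ∃ f : Γ.Point → ℝ, Γ.IsDivOf f D ∧ ∀ v, f (Γ.vert v) = F v := by
  classical
  refine ⟨Γ.chainFn s D F, ⟨fun e t => -s e + D.sum fun x n => n * Γ.indLe e t x,
    fun e t => s e - D.sum fun x n => n * Γ.indLt e t x, ?_, ?_, ?_, ?_⟩, fun v => rfl⟩
  · intro e t h0 h1
    have h2 : ∀ᶠ h in 𝓝[>] (0 : ℝ), h < Γ.len e - t :=
      mem_nhdsWithin_of_mem_nhds (Iio_mem_nhds (sub_pos.2 h1))
    unfold OutSlopeFwd
    filter_upwards [h2, self_mem_nhdsWithin, edgeFn_fwd s D F e t] with k hk hk' hk''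
    have hk0 : 0 < k := hk'
    rw [chainFn_pt hF e (by linarith) (by linarith), chainFn_pt hF e h0 h1.le, hk'']
  · intro e t h0 h1
    have h2 : ∀ᶠ h in 𝓝[>] (0 : ℝ), h < t :=
      mem_nhdsWithin_of_mem_nhds (Iio_mem_nhds h0)
    unfold OutSlopeBwd
    filter_upwards [h2, self_mem_nhdsWithin, edgeFn_bwd s D F e t] with k hk hk' hk''
    have hk0 : 0 < k := hk'
    rw [chainFn_pt hF e (by linarith) (by linarith), chainFn_pt hF e h0.le h1, hk'']
  · intro e t
    have h2 : (D.sum fun x n => n * Γ.indLe e t x) - (D.sum fun x n => n * Γ.indLt e t x) =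
        D (Γ.inner e t) := by
      simp only [Finsupp.sum]
      rw [← Finset.sum_sub_distrib]
      have h3 : ∀ x ∈ D.support, D x * Γ.indLe e t x - D x * Γ.indLt e t x =
          if x = Γ.inner e t then D x else 0 := by
        intro x _
        rw [← mul_sub, indLe_sub_indLt]
        split_ifs <;> ring
      rw [Finset.sum_congr rfl h3, Finset.sum_ite_eq' D.support (Γ.inner e t) (fun x => D x)]
      split_ifs with h4
      · rfl
      · exact (Finsupp.notMem_support_iff.1 h4).symm
    rw [← h2]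
    ring
  · intro v
    have h2 : ∀ e : Γ.E, (D.sum fun x n => n * Γ.indLe e 0 x) = 0 := fun e =>
      Finset.sum_eq_zero fun x _ => by
        change D x * Γ.indLe e 0 x = 0
        rw [indLe_zero, mul_zero]
    have h3 : ∀ e : Γ.E, (D.sum fun x n => n * Γ.indLt e (Γ.len e) x) = Γ.degOn e D := fun e =>
      Finset.sum_congr rfl fun x _ => by
        change D x * Γ.indLt e (Γ.len e) x = _
        rw [indLt_len]
    rw [h v]
    simp only [h2, h3, add_zero]
    rw [sub_eq_add_neg, add_comm, ← Finset.sum_neg_distrib]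
    congr 1
    refine Finset.sum_congr rfl fun e _ => ?_
    split_ifs <;> simp

end MetricGraph

end Pool.Agent.TropBN
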