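import Pool.Agent.TropBN.C1
import Pool.Agent.TropBN.C2
import Pool.Agent.TropBN.C3
import Pool.Agent.TropBN.C4

/-!
# Chains, boundaries, and rational functions

Collects `exists_isBoundary` (`C1`), `deg_eq_zero_of_isBoundary` (`C2`),
`exists_isBoundary_of_isDivOf` (`C3`) and `exists_isDivOf` (`C4`).
-/
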