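import Mathlib

/-!
# The arithmetic core: flows through the gadgets
-/

namespace Pool.Agent.TropBN

/-- The local data of a flow at one gadget `K_{2,3}`. -/
structure Gad (N : Fin 3 → ℤ) (A B : Fin 3 → Fin 2 → ℤ) (I : Fin 3 → Fin 2 → ℝ) (P : Fin 3 → ℝ)
    (U : Fin 2 → ℝ) : Prop where
  hBI : ∀ i j, (B i j : ℝ) ≤ I i j
  hIA : ∀ i j, I i j ≤ A i j
  hN : ∀ i, A i 0 + A i 1 ≤ N i
  hC : ∀ j, 0 ≤ B 0 j + B 1 j + B 2 j
  hE : ∀ i j, |I i j - (P i - U j)| ≤ 1 / 100

section gadget

variable {N : Fin 3 → ℤ} {A B : Fin 3 → Fin 2 → ℤ} {I : Fin 3 → Fin 2 → ℝ} {P : Fin 3 → ℝ}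
  {U : Fin 2 → ℝ}

lemma pick_one {f : Fin 3 → ℤ} (h : 0 ≤ f 0 + f 1 + f 2) (i : Fin 3) (hi : f i ≤ -1) :
    ∃ k, k ≠ i ∧ 1 ≤ f k := by
  by_contra hcon
  push Not at hcon
  fin_cases i
  · have h1 := hcon 1 (by decide)
    have h2 := hcon 2 (by decide)
    simp only [Fin.zero_eta] at hi
    omega
  · have h1 := hcon 0 (by decide)
    have h2 := hcon 2 (by decide)
    simp only [Fin.mk_one] at hi
    omega
  · have h1 := hcon 0 (by decide)
    have h2 := hcon 1 (by decide)
    simp only [Fin.reduceFinMk] at hi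
    omega

lemma pick_two {f : Fin 3 → ℤ} (h : 0 ≤ f 0 + f 1 + f 2) {i k : Fin 3} (hik : k ≠ i) {a b : ℤ}
    (hi : f i ≤ a) (hk : f k ≤ b) : ∃ l, l ≠ i ∧ l ≠ k ∧ -a - b ≤ f l := by
  fin_cases i <;> fin_cases k
  · exact absurd rfl hik
  · refine ⟨2, by decide, by decide, ?_⟩
    simp only [Fin.zero_eta, Fin.mk_one] at hi hk
    omega
  · refine ⟨1, by decide, by decide, ?_⟩
    simp only [Fin.zero_eta, Fin.reduceFinMk] at hi hk
    omega
  · refine ⟨2, by decide, by decide, ?_⟩
    simp only [Fin.zero_eta, Fin.mk_one] at hi hk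
    omega
  · exact absurd rfl hik
  · refine ⟨0, by decide, by decide, ?_⟩
    simp only [Fin.mk_one, Fin.reduceFinMk] at hi hk
    omega
  · refine ⟨1, by decide, by decide, ?_⟩
    simp only [Fin.zero_eta, Fin.reduceFinMk] at hi hk
    omega
  · refine ⟨0, by decide, by decide, ?_⟩
    simp only [Fin.mk_one, Fin.reduceFinMk] at hi hk
    omega
  · exact absurd rfl hik

namespace Gad

lemma hN' (g : Gad N A B I P U) (i : Fin 3) {j j' : Fin 2} (h : j ≠ j') :
    A i j + A i j' ≤ N i := by
  have := g.hN i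
  fin_cases j <;> fin_cases j'
  · exact absurd rfl h
  · simpa using this
  · have : A i 1 + A i 0 ≤ N i := by omega
    simpa using this
  · exact absurd rfl h

lemma hC' (g : Gad N A B I P U) (j : Fin 2) :
    0 ≤ (fun i => B i j) 0 + (fun i => B i j) 1 + (fun i => B i j) 2 := g.hC j

lemma lo (g : Gad N A B I P U) (i : Fin 3) (j : Fin 2) : P i - U j - 1 / 100 ≤ I i j := by
  have := (abs_le.1 (g.hE i j)).1
  linarith

lemma up (g : Gad N A B I P U) (i : Fin 3) (j : Fin 2) : I i j ≤ P i - U j + 1 / 100 := by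
  have := (abs_le.1 (g.hE i j)).2
  linarith

lemma B_le_A (g : Gad N A B I P U) (i : Fin 3) (j : Fin 2) : B i j ≤ A i j := by
  have : (B i j : ℝ) ≤ A i j := (g.hBI i j).trans (g.hIA i j)
  exact_mod_cast this

/-- If the flow leaves the gadget through the port `i`, then at least two units enter it through
a port of higher potential. -/
lemma outflow (g : Gad N A B I P U) (i : Fin 3) (hi : N i ≤ -1) :
    ∃ k, 2 ≤ N k ∧ P i + 1 ≤ P k := by
  obtain ⟨j, j', hjj, hj⟩ : ∃ j j' : Fin 2, j ≠ j' ∧ A i j ≤ -1 := by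
    have := g.hN i
    rcases le_or_gt (A i 0) (-1) with h | h
    · exact ⟨0, 1, by decide, h⟩
    · exact ⟨1, 0, by decide, by omega⟩
  have hIij : I i j ≤ -1 := by
    have := g.hIA i j
    have h2 : ((A i j : ℤ) : ℝ) ≤ -1 := by exact_mod_cast hj
    linarith
  have hUj : P i + 1 - 1 / 100 ≤ U j := by
    have := g.lo i j
    linarith
  have hBij : B i j ≤ -1 := (g.B_le_A i j).trans hj
  obtain ⟨k, hki, hk⟩ := pick_one (f := fun i => B i j) (g.hC' j) i hBij
  have hkR : (1 : ℝ) ≤ B k j := by exact_mod_cast hk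
  have hPk : U j + 1 - 1 / 100 ≤ P k := by
    have := g.hBI k j
    have := g.up k j
    linarith
  have hAk : 1 ≤ A k j := hk.trans (g.B_le_A k j)
  rcases le_or_gt 1 (A k j') with h | h
  · refine ⟨k, ?_, by linarith⟩
    have := g.hN' k hjj
    omega
  · have hAkj' : A k j' ≤ 0 := by omega
    have h1 : ((A k j' : ℤ) : ℝ) ≤ 0 := by exact_mod_cast hAkj'
    have h2 : P k - 1 / 100 ≤ U j' := by
      have := g.lo k j'
      have := g.hIA k j'
      linarith
    have h3 : I i j' ≤ -2 + 4 / 100 := by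
      have := g.up i j'
      linarith
    have h4 : B i j' ≤ -2 := by
      have := g.hBI i j'
      have h5 : (B i j' : ℝ) < -1 := by linarith
      have h6 : B i j' < -1 := by exact_mod_cast h5
      omega
    obtain ⟨l, hli, hlk, hl⟩ := pick_two (f := fun i => B i j') (g.hC' j') hki h4
      (show B k j' ≤ 0 from (g.B_le_A k j').trans hAkj')
    have hl2 : 2 ≤ B l j' := by omega
    have hlR : (2 : ℝ) ≤ B l j' := by exact_mod_cast hl2
    have hPl : U j' + 2 - 1 / 100 ≤ P l := by
      have := g.hBI l j'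
      have := g.up l j'
      linarith
    have hAl : 2 ≤ A l j' := hl2.trans (g.B_le_A l j')
    rcases le_or_gt 0 (A l j) with h7 | h7
    · refine ⟨l, ?_, by linarith⟩
      have := g.hN' l hjj
      omega
    · exfalso
      have h8 : A l j ≤ -1 := by omega
      have h9 : ((A l j : ℤ) : ℝ) ≤ -1 := by exact_mod_cast h8
      have := g.hIA l j
      have := g.lo l j
      linarith

/-- If all ports have inflow at most one and the flow reaches the centre `j`, then it comes through
all three ports, one unit each, and the other star is empty. -/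
lemma reach (g : Gad N A B I P U) (hN1 : ∀ i, N i ≤ 1) {i : Fin 3} {j j' : Fin 2} (hjj : j ≠ j')
    (hB : 1 ≤ B i j) : ∀ k, N k = 1 ∧ I k j' = 0 := by
  have hBR : (1 : ℝ) ≤ B i j := by exact_mod_cast hB
  have hAij : 1 ≤ A i j := hB.trans (g.B_le_A i j)
  have hPi : U j + 1 - 1 / 100 ≤ P i := by
    have := g.hBI i j
    have := g.up i j
    linarith
  have hAij' : A i j' ≤ 0 := by
    have := g.hN' i hjj
    have := hN1 i
    omega
  have hAij'R : ((A i j' : ℤ) : ℝ) ≤ 0 := by exact_mod_cast hAij'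
  have hUj' : P i - 1 / 100 ≤ U j' := by
    have := g.lo i j'
    have := g.hIA i j'
    linarith
  have key : ∀ k, 1 ≤ A k j := by
    intro k
    by_contra hk
    have hk0 : A k j ≤ 0 := by omega
    have hk0R : ((A k j : ℤ) : ℝ) ≤ 0 := by exact_mod_cast hk0
    have hki : k ≠ i := by
      rintro rfl
      exact hk hAij
    have h1 : P k ≤ U j + 1 / 100 := by
      have := g.lo k j
      have := g.hIA k j
      linarith
    have h2 : I k j' ≤ -1 + 4 / 100 := by
      have := g.up k j'
      linarith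
    have h3 : B k j' ≤ -1 := by
      have := g.hBI k j'
      have h5 : (B k j' : ℝ) < 0 := by linarith
      have h6 : B k j' < 0 := by exact_mod_cast h5
      omega
    obtain ⟨l, hli, hlk, hl⟩ := pick_two (f := fun i => B i j') (g.hC' j') hki
      (show B i j' ≤ 0 from (g.B_le_A i j').trans hAij') h3
    have hl1 : 1 ≤ B l j' := by omega
    have hlR : (1 : ℝ) ≤ B l j' := by exact_mod_cast hl1
    have hAl : 1 ≤ A l j' := hl1.trans (g.B_le_A l j')
    have hAlj : A l j ≤ 0 := by
      have := g.hN' l hjj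
      have := hN1 l
      omega
    have hAljR : ((A l j : ℤ) : ℝ) ≤ 0 := by exact_mod_cast hAlj
    have := g.hIA l j
    have := g.lo l j
    have := g.hBI l j'
    have := g.up l j'
    linarith
  have hA' : ∀ k, A k j' ≤ 0 := by
    intro k
    have := g.hN' k hjj
    have := hN1 k
    have := key k
    omega
  have hB' : ∀ k, B k j' ≤ 0 := fun k => (g.B_le_A k j').trans (hA' k)
  have hB0 : ∀ k, B k j' = 0 := by
    have h := g.hC j'
    have h0 := hB' 0
    have h1 := hB' 1
    have h2 := hB' 2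
    intro k
    fin_cases k
    · show B 0 j' = 0
      omega
    · show B 1 j' = 0
      omega
    · show B 2 j' = 0
      omega
  have hA0 : ∀ k, A k j' = 0 := fun k => le_antisymm (hA' k) (by rw [← hB0 k]; exact g.B_le_A k j')
  intro k
  constructor
  · have h1 := g.hN' k hjj
    have h2 := hN1 k
    have h3 := key k
    have h4 := hA0 k
    omega
  · apply le_antisymm
    · have := g.hIA k j'
      rw [hA0 k] at this
      simpa using this
    · have := g.hBI k j'
      rw [hB0 k] at this
      simpa using this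

/-- If the flow does not reach the centres, the flow in the legs is nonnegative, and at most one
of the two legs at each port carries flow. -/
lemma noreach (g : Gad N A B I P U) (hN1 : ∀ i, N i ≤ 1) (hB : ∀ i j, B i j ≤ 0) :
    ∀ i, (0 ≤ I i 0 ∧ 0 ≤ I i 1) ∧ (I i 0 = 0 ∨ I i 1 = 0) ∧ (N i ≤ 0 → I i 0 = 0 ∧ I i 1 = 0) := by
  have hB0 : ∀ i j, B i j = 0 := by
    intro i j
    have h := g.hC j
    have h0 := hB 0 j
    have h1 := hB 1 j
    have h2 := hB 2 j
    fin_cases i
    · show B 0 j = 0
      omega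
    · show B 1 j = 0
      omega
    · show B 2 j = 0
      omega
  have hA : ∀ i j, 0 ≤ A i j := fun i j => by
    have := g.B_le_A i j
    rw [hB0] at this
    exact this
  have hI : ∀ i j, 0 ≤ I i j := fun i j => by
    have := g.hBI i j
    rw [hB0] at this
    simpa using this
  have hI0 : ∀ i j, A i j = 0 → I i j = 0 := fun i j h => le_antisymm (by
    have := g.hIA i j
    rw [h] at this
    simpa using this) (hI i j)
  intro i
  refine ⟨⟨hI i 0, hI i 1⟩, ?_, ?_⟩
  · have h1 := g.hN i
    have h2 := hN1 i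
    have h3 := hA i 0
    have h4 := hA i 1
    rcases Nat.eq_zero_or_pos (A i 0).toNat with h5 | h5
    · left
      exact hI0 i 0 (by omega)
    · right
      exact hI0 i 1 (by omega)
  · intro hNi
    have h1 := g.hN i
    have h3 := hA i 0
    have h4 := hA i 1
    exact ⟨hI0 i 0 (by omega), hI0 i 1 (by omega)⟩

end Gad

end gadget

end Pool.Agent.TropBN
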