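import Pool.Agent.TropBN.Core

/-!
# The arithmetic core, global part
-/

namespace Pool.Agent.TropBN

/-- A flow on the graph (Moebius ladder on `ZMod 8` with gadgets `K_{2,3}`): `N v i` is the inflow
into the gadget `v` through the port `i`; `A v i j`, `B v i j` are the flows at the two ends of the
leg from the port `i` to the centre `j`, `I v i j` its integral over the leg; `r v`, `c v` are the
integrals over the rim edge from `v` to `v + 1` and over the chord from `v + 4` to `v`; `P`, `U` are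
approximate potentials. -/
structure Flow (ηl : ZMod 8 → Fin 3 → Fin 2 → ℝ) (ηr ηc : ZMod 8 → ℝ) where
  N : ZMod 8 → Fin 3 → ℤ
  A : ZMod 8 → Fin 3 → Fin 2 → ℤ
  B : ZMod 8 → Fin 3 → Fin 2 → ℤ
  I : ZMod 8 → Fin 3 → Fin 2 → ℝ
  r : ZMod 8 → ℝ
  c : ZMod 8 → ℝ
  P : ZMod 8 → Fin 3 → ℝ
  U : ZMod 8 → Fin 2 → ℝ
  hBI : ∀ v i j, (B v i j : ℝ) ≤ I v i j
  hIA : ∀ v i j, I v i j ≤ A v i j
  hN : ∀ v i, A v i 0 + A v i 1 ≤ N v i
  hC : ∀ v j, 0 ≤ B v 0 j + B v 1 j + B v 2 j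
  hr1 : ∀ v, 2 * (N (v + 1) 1 : ℝ) - 1 ≤ r v
  hr0 : ∀ v, r v ≤ 1 - 2 * (N v 0 : ℝ)
  hc : ∀ v, 4 * (2 * (N v 2 : ℝ) - 1) ≤ c v
  hcs : ∀ v, c (v + 4) = -c v
  eI : ∀ v i j, I v i j = P v i - U v j + ηl v i j
  er : ∀ v, r v = P v 0 - P (v + 1) 1 + ηr v
  ec : ∀ v, c v = P (v + 4) 2 - P v 2 + ηc v

lemma z44 (v : ZMod 8) : v + 4 + 4 = v := by
  have : (4 : ZMod 8) + 4 = 0 := by decide
  rw [add_assoc, this, add_zero]

namespace Flow

variable {ηl : ZMod 8 → Fin 3 → Fin 2 → ℝ} {ηr ηc : ZMod 8 → ℝ}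

/-- All the perturbations are small. -/
def Small (ηl : ZMod 8 → Fin 3 → Fin 2 → ℝ) (ηr ηc : ZMod 8 → ℝ) : Prop :=
  (∀ v i j, |ηl v i j| ≤ 1 / 100) ∧ (∀ v, |ηr v| ≤ 1 / 100) ∧ (∀ v, |ηc v| ≤ 1 / 100)

lemma gad (F : Flow ηl ηr ηc) (hs : Small ηl ηr ηc) (v : ZMod 8) :
    Gad (F.N v) (F.A v) (F.B v) (F.I v) (F.P v) (F.U v) where
  hBI := F.hBI v
  hIA := F.hIA v
  hN := F.hN v
  hC := F.hC v
  hE := fun i j => by
    have h := F.eI v i j
    have : F.I v i j - (F.P v i - F.U v j) = ηl v i j := by linarith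
    rw [this]
    exact hs.1 v i j

lemma nonneg (F : Flow ηl ηr ηc) (hs : Small ηl ηr ηc) (v : ZMod 8) (i : Fin 3) :
    0 ≤ F.N v i := by
  by_contra hneg
  have hne : ((Finset.univ : Finset (ZMod 8 × Fin 3)).filter
      (fun p => F.N p.1 p.2 ≤ -1)).Nonempty := ⟨(v, i), by simp; omega⟩
  obtain ⟨⟨v, i⟩, hvi, hmax⟩ := Finset.exists_max_image _ (fun p => F.P p.1 p.2) hne
  simp only [Finset.mem_filter, Finset.mem_univ, true_and] at hvi hmax
  have hmax' : ∀ v' i', F.N v' i' ≤ -1 → F.P v' i' ≤ F.P v i := fun v' i' h => hmax (v', i') h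
  obtain ⟨k, hk, hPk⟩ := (F.gad hs v).outflow i hvi
  have hkR : (2 : ℝ) ≤ F.N v k := by exact_mod_cast hk
  fin_cases k
  · simp only [Fin.zero_eta] at hk hPk hkR
    have h1 := F.hr0 v
    have h2 := F.hr1 v
    have h3 : (F.N (v + 1) 1 : ℝ) ≤ -1 := by linarith
    have h4 : F.N (v + 1) 1 ≤ -1 := by exact_mod_cast h3
    have h5 := hmax' _ _ h4
    have h6 := F.er v
    have h7 := (abs_le.1 (hs.2.1 v)).1
    linarith
  · simp only [Fin.mk_one] at hk hPk hkR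
    have h1 := F.hr0 (v - 1)
    have h2 := F.hr1 (v - 1)
    rw [sub_add_cancel] at h2
    have h3 : (F.N (v - 1) 0 : ℝ) ≤ -1 := by linarith
    have h4 : F.N (v - 1) 0 ≤ -1 := by exact_mod_cast h3
    have h5 := hmax' _ _ h4
    have h6 := F.er (v - 1)
    rw [sub_add_cancel] at h6
    have h7 := (abs_le.1 (hs.2.1 (v - 1))).2
    linarith
  · simp only [Fin.reduceFinMk] at hk hPk hkR
    have h1 := F.hc v
    have h2 := F.hc (v + 4)
    rw [F.hcs] at h2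
    have h3 : (F.N (v + 4) 2 : ℝ) ≤ -1 := by linarith
    have h4 : F.N (v + 4) 2 ≤ -1 := by exact_mod_cast h3
    have h5 := hmax' _ _ h4
    have h6 := F.ec v
    have h7 := (abs_le.1 (hs.2.2 v)).2
    linarith

lemma le_one (F : Flow ηl ηr ηc) (hs : Small ηl ηr ηc) (v : ZMod 8) (i : Fin 3) :
    F.N v i ≤ 1 := by
  have key : (F.N v i : ℝ) ≤ 1 := by
    fin_cases i
    · have h0 : (0 : ℝ) ≤ F.N (v + 1) 1 := by exact_mod_cast F.nonneg hs (v + 1) 1
      have h1 := F.hr0 v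
      have h2 := F.hr1 v
      simp only [Fin.zero_eta]
      linarith
    · have h0 : (0 : ℝ) ≤ F.N (v - 1) 0 := by exact_mod_cast F.nonneg hs (v - 1) 0
      have h1 := F.hr0 (v - 1)
      have h2 := F.hr1 (v - 1)
      rw [sub_add_cancel] at h2
      simp only [Fin.mk_one]
      linarith
    · have h0 : (0 : ℝ) ≤ F.N (v + 4) 2 := by exact_mod_cast F.nonneg hs (v + 4) 2
      have h1 := F.hc v
      have h2 := F.hc (v + 4)
      rw [F.hcs] at h2
      simp only [Fin.reduceFinMk]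
      linarith
  exact_mod_cast key

lemma r_le (F : Flow ηl ηr ηc) (hs : Small ηl ηr ηc) (v : ZMod 8) : F.r v ≤ 1 := by
  have h0 : (0 : ℝ) ≤ F.N v 0 := by exact_mod_cast F.nonneg hs v 0
  have h1 := F.hr0 v
  linarith

lemma le_r (F : Flow ηl ηr ηc) (hs : Small ηl ηr ηc) (v : ZMod 8) : -1 ≤ F.r v := by
  have h0 : (0 : ℝ) ≤ F.N (v + 1) 1 := by exact_mod_cast F.nonneg hs (v + 1) 1
  have h1 := F.hr1 v
  linarith

/-- Either the flow reaches one of the centres of `v`, or it reaches none. -/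
lemma dich (F : Flow ηl ηr ηc) (hs : Small ηl ηr ηc) (v : ZMod 8) :
    (∃ j j' : Fin 2, j ≠ j' ∧ ∀ k, F.N v k = 1 ∧ F.I v k j' = 0) ∨
    (∀ i, (0 ≤ F.I v i 0 ∧ 0 ≤ F.I v i 1) ∧ (F.I v i 0 = 0 ∨ F.I v i 1 = 0) ∧
      (F.N v i ≤ 0 → F.I v i 0 = 0 ∧ F.I v i 1 = 0)) := by
  by_cases h : ∃ i j, 1 ≤ F.B v i j
  · obtain ⟨i, j, hij⟩ := h
    obtain ⟨j', hj'⟩ : ∃ j' : Fin 2, j ≠ j' := by
      fin_cases j
      · exact ⟨1, by decide⟩
      · exact ⟨0, by decide⟩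
    exact Or.inl ⟨j, j', hj', (F.gad hs v).reach (F.le_one hs v) hj' hij⟩
  · push Not at h
    exact Or.inr ((F.gad hs v).noreach (F.le_one hs v) (fun i j => by have := h i j; omega))

/-- The potentials of the ports of one gadget are close to each other. -/
lemma close (F : Flow ηl ηr ηc) (hs : Small ηl ηr ηc) (v : ZMod 8) (i k : Fin 3) :
    F.P v i ≤ F.P v k + 6 / 100 := by
  rcases F.dich hs v with ⟨j, j', hjj, h⟩ | h
  · have h1 := F.eI v i j'
    have h2 := F.eI v k j'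
    rw [(h i).2] at h1
    rw [(h k).2] at h2
    have h3 := abs_le.1 (hs.1 v i j')
    have h4 := abs_le.1 (hs.1 v k j')
    linarith [h3.1, h3.2, h4.1, h4.2]
  · obtain ⟨⟨a1, a2⟩, a3, -⟩ := h i
    obtain ⟨⟨b1, b2⟩, b3, -⟩ := h k
    have i0 := F.eI v i 0
    have i1 := F.eI v i 1
    have k0 := F.eI v k 0
    have k1 := F.eI v k 1
    have e1 := abs_le.1 (hs.1 v i 0)
    have e2 := abs_le.1 (hs.1 v i 1)
    have e3 := abs_le.1 (hs.1 v k 0)
    have e4 := abs_le.1 (hs.1 v k 1)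
    obtain ⟨e11, e12⟩ := e1
    obtain ⟨e21, e22⟩ := e2
    obtain ⟨e31, e32⟩ := e3
    obtain ⟨e41, e42⟩ := e4
    rcases a3 with a3 | a3 <;> rcases b3 with b3 | b3 <;> linarith

/-- Ports without inflow have empty legs. -/
lemma empty (F : Flow ηl ηr ηc) (hs : Small ηl ηr ηc) {v : ZMod 8} {i : Fin 3} (hi : F.N v i = 0) :
    F.I v i 0 = 0 ∧ F.I v i 1 = 0 := by
  rcases F.dich hs v with ⟨j, j', hjj, h⟩ | h
  · have := (h i).1
    omega
  · exact (h i).2.2 hi.le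

lemma target (F : Flow ηl ηr ηc) (hs : Small ηl ηr ηc) {w : ZMod 8}
    (hw : 1 ≤ F.B w 0 0 + F.B w 1 0 + F.B w 2 0) (k : Fin 3) : F.N w k = 1 := by
  obtain ⟨i, hi⟩ : ∃ i, 1 ≤ F.B w i 0 := by
    by_contra h
    push Not at h
    have h0 := h 0
    have h1 := h 1
    have h2 := h 2
    omega
  exact ((F.gad hs w).reach (F.le_one hs w) (show (0 : Fin 2) ≠ 1 by decide) hi k).1

end Flow

open Flow

variable {ηl : ZMod 8 → Fin 3 → Fin 2 → ℝ} {ηr ηc : ZMod 8 → ℝ}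

/-- The flow for the target `v + 1` shows that the ports `0` and `2` of `v` are empty. -/
lemma right_empty (F : Flow ηl ηr ηc) (hs : Small ηl ηr ηc) (v : ZMod 8)
    (hw : 1 ≤ F.B (v + 1) 0 0 + F.B (v + 1) 1 0 + F.B (v + 1) 2 0) :
    F.N v 0 = 0 ∧ F.N v 2 = 0 := by
  have hN1 := F.target hs hw 1
  have hN1R : (F.N (v + 1) 1 : ℝ) = 1 := by exact_mod_cast hN1
  have hr := F.hr1 v
  have hr' := F.hr0 v
  have h0 : F.N v 0 = 0 := by
    have h1 : (F.N v 0 : ℝ) ≤ 0 := by rw [hN1R] at hr; linarith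
    have h2 : F.N v 0 ≤ 0 := by exact_mod_cast h1
    have := F.nonneg hs v 0
    omega
  refine ⟨h0, ?_⟩
  by_contra h2
  have h2' : F.N v 2 = 1 := by
    have := F.nonneg hs v 2
    have := F.le_one hs v 2
    omega
  have h2R : (F.N v 2 : ℝ) = 1 := by exact_mod_cast h2'
  have hc := F.hc v
  rw [h2R] at hc
  rw [hN1R] at hr
  have a1 := F.ec v
  have a2 := F.er v
  have a3 := F.close hs v 2 0
  have a3' := F.close hs v 0 2
  have e1 := abs_le.1 (hs.2.2 v)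
  have e2 := abs_le.1 (hs.2.1 v)
  -- the path v+1, v+2, v+3, v+4
  have p1 : v + 1 + 1 = v + 2 := by ring
  have p2 : v + 2 + 1 = v + 3 := by ring
  have p3 : v + 3 + 1 = v + 4 := by ring
  have b1 := F.er (v + 1)
  have b2 := F.er (v + 2)
  have b3 := F.er (v + 3)
  rw [p1] at b1
  rw [p2] at b2
  rw [p3] at b3
  have c1 := F.le_r hs (v + 1)
  have c2 := F.le_r hs (v + 2)
  have c3 := F.le_r hs (v + 3)
  have d1 := F.close hs (v + 1) 0 1
  have d2 := F.close hs (v + 2) 0 1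
  have d3 := F.close hs (v + 3) 0 1
  have d4 := F.close hs (v + 4) 2 1
  have f1 := abs_le.1 (hs.2.1 (v + 1))
  have f2 := abs_le.1 (hs.2.1 (v + 2))
  have f3 := abs_le.1 (hs.2.1 (v + 3))
  obtain ⟨e11, e12⟩ := e1
  obtain ⟨e21, e22⟩ := e2
  obtain ⟨f11, f12⟩ := f1
  obtain ⟨f21, f22⟩ := f2
  obtain ⟨f31, f32⟩ := f3
  linarith

/-- The flow for the target `v` shows that the ports `1` and `2` of `v + 1` are empty. -/
lemma left_empty (F : Flow ηl ηr ηc) (hs : Small ηl ηr ηc) (v : ZMod 8)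
    (hw : 1 ≤ F.B v 0 0 + F.B v 1 0 + F.B v 2 0) :
    F.N (v + 1) 1 = 0 ∧ F.N (v + 1) 2 = 0 := by
  have hN0 := F.target hs hw 0
  have hN0R : (F.N v 0 : ℝ) = 1 := by exact_mod_cast hN0
  have hr := F.hr1 v
  have hr' := F.hr0 v
  have h0 : F.N (v + 1) 1 = 0 := by
    have h1 : (F.N (v + 1) 1 : ℝ) ≤ 0 := by rw [hN0R] at hr'; linarith
    have h2 : F.N (v + 1) 1 ≤ 0 := by exact_mod_cast h1
    have := F.nonneg hs (v + 1) 1
    omega
  refine ⟨h0, ?_⟩
  by_contra h2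
  have h2' : F.N (v + 1) 2 = 1 := by
    have := F.nonneg hs (v + 1) 2
    have := F.le_one hs (v + 1) 2
    omega
  have h2R : (F.N (v + 1) 2 : ℝ) = 1 := by exact_mod_cast h2'
  have hc := F.hc (v + 1)
  rw [h2R] at hc
  rw [hN0R] at hr'
  have q0 : v + 1 + 4 = v + 5 := by ring
  have a1 := F.ec (v + 1)
  rw [q0] at a1
  have a2 := F.er v
  have a3 := F.close hs (v + 1) 2 1
  have a3' := F.close hs (v + 1) 1 2
  have e1 := abs_le.1 (hs.2.2 (v + 1))
  have e2 := abs_le.1 (hs.2.1 v)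
  -- the path v, v-1, v-2, v-3 = v+5
  have p1 : v + 5 + 1 = v + 6 := by ring
  have p2 : v + 6 + 1 = v + 7 := by ring
  have p3 : v + 7 + 1 = v := by
    have : (7 : ZMod 8) + 1 = 0 := by decide
    rw [add_assoc, this, add_zero]
  have b1 := F.er (v + 5)
  have b2 := F.er (v + 6)
  have b3 := F.er (v + 7)
  rw [p1] at b1
  rw [p2] at b2
  rw [p3] at b3
  have c1 := F.r_le hs (v + 5)
  have c2 := F.r_le hs (v + 6)
  have c3 := F.r_le hs (v + 7)
  have d1 := F.close hs (v + 5) 2 0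
  have d2 := F.close hs (v + 6) 1 0
  have d3 := F.close hs (v + 7) 1 0
  have d4 := F.close hs v 1 0
  have f1 := abs_le.1 (hs.2.1 (v + 5))
  have f2 := abs_le.1 (hs.2.1 (v + 6))
  have f3 := abs_le.1 (hs.2.1 (v + 7))
  obtain ⟨e11, e12⟩ := e1
  obtain ⟨e21, e22⟩ := e2
  obtain ⟨f11, f12⟩ := f1
  obtain ⟨f21, f22⟩ := f2
  obtain ⟨f31, f32⟩ := f3
  linarith

/-- The gadget cycles have zero period. -/
lemma b_zero (hs : Small ηl ηr ηc)
    (H : ∀ w : ZMod 8, ∃ F : Flow ηl ηr ηc, 1 ≤ F.B w 0 0 + F.B w 1 0 + F.B w 2 0) (v : ZMod 8) :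
    ∀ i k, ηl v i 0 - ηl v k 0 = ηl v i 1 - ηl v k 1 := by
  have h02 : ηl v 0 0 - ηl v 2 0 = ηl v 0 1 - ηl v 2 1 := by
    obtain ⟨F, hF⟩ := H (v + 1)
    obtain ⟨h0, h2⟩ := right_empty F hs v hF
    obtain ⟨a0, a1⟩ := F.empty hs h0
    obtain ⟨b0, b1⟩ := F.empty hs h2
    have c0 := F.eI v 0 0
    have c1 := F.eI v 0 1
    have d0 := F.eI v 2 0
    have d1 := F.eI v 2 1
    linarith
  have h12 : ηl v 1 0 - ηl v 2 0 = ηl v 1 1 - ηl v 2 1 := by
    obtain ⟨F, hF⟩ := H (v - 1)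
    obtain ⟨h0, h2⟩ := left_empty F hs (v - 1) hF
    rw [sub_add_cancel] at h0 h2
    obtain ⟨a0, a1⟩ := F.empty hs h0
    obtain ⟨b0, b1⟩ := F.empty hs h2
    have c0 := F.eI v 1 0
    have c1 := F.eI v 1 1
    have d0 := F.eI v 2 0
    have d1 := F.eI v 2 1
    linarith
  intro i k
  fin_cases i <;> fin_cases k <;> simp only [Fin.zero_eta, Fin.mk_one, Fin.reduceFinMk] <;> linarith

/-- In every flow the integrals over the legs of one star are equal. -/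
lemma I_eq (F : Flow ηl ηr ηc) (hs : Small ηl ηr ηc) (v : ZMod 8)
    (hb : ∀ i k, ηl v i 0 - ηl v k 0 = ηl v i 1 - ηl v k 1) (i k : Fin 3) (j : Fin 2) :
    F.I v i j = F.I v k j := by
  have i0 := F.eI v i 0
  have i1 := F.eI v i 1
  have k0 := F.eI v k 0
  have k1 := F.eI v k 1
  have hbik := hb i k
  have main : F.I v i 0 - F.I v k 0 = F.I v i 1 - F.I v k 1 := by linarith
  rcases F.dich hs v with ⟨a, a', haa, h⟩ | h
  · have h1 := (h i).2
    have h2 := (h k).2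
    fin_cases a <;> fin_cases a' <;> fin_cases j <;>
      simp only [Fin.zero_eta, Fin.mk_one] at h1 h2 haa ⊢ <;>
      first | exact absurd rfl haa | linarith
  · obtain ⟨⟨a1, a2⟩, a3, -⟩ := h i
    obtain ⟨⟨b1, b2⟩, b3, -⟩ := h k
    fin_cases j <;> simp only [Fin.zero_eta, Fin.mk_one] <;>
      rcases a3 with a3 | a3 <;> rcases b3 with b3 | b3 <;> linarith

/-- The differences of the potentials of the ports of one gadget do not depend on the flow. -/
lemma P_sub (F : Flow ηl ηr ηc) (hs : Small ηl ηr ηc) (v : ZMod 8)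
    (hb : ∀ i k, ηl v i 0 - ηl v k 0 = ηl v i 1 - ηl v k 1) (i k : Fin 3) :
    F.P v i - F.P v k = ηl v k 0 - ηl v i 0 := by
  have h := I_eq F hs v hb i k 0
  have i0 := F.eI v i 0
  have k0 := F.eI v k 0
  linarith

/-- The sum of the integrals over a chord and an arc does not depend on the flow. -/
lemma K_eq (F F' : Flow ηl ηr ηc) (hs : Small ηl ηr ηc)
    (hb : ∀ v i k, ηl v i 0 - ηl v k 0 = ηl v i 1 - ηl v k 1) (v : ZMod 8) :
    F.r v + F.r (v + 1) + F.r (v + 2) + F.r (v + 3) + F.c v =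
      F'.r v + F'.r (v + 1) + F'.r (v + 2) + F'.r (v + 3) + F'.c v := by
  have p1 : v + 1 + 1 = v + 2 := by ring
  have p2 : v + 2 + 1 = v + 3 := by ring
  have p3 : v + 3 + 1 = v + 4 := by ring
  have key : ∀ F : Flow ηl ηr ηc,
      F.r v + F.r (v + 1) + F.r (v + 2) + F.r (v + 3) + F.c v =
      (ηl v 2 0 - ηl v 0 0) + (ηl (v + 1) 1 0 - ηl (v + 1) 0 0) +
      (ηl (v + 2) 1 0 - ηl (v + 2) 0 0) + (ηl (v + 3) 1 0 - ηl (v + 3) 0 0) +
      (ηl (v + 4) 1 0 - ηl (v + 4) 2 0) + (ηr v + ηr (v + 1) + ηr (v + 2) + ηr (v + 3)) + ηc v := by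
    intro F
    have a0 := F.er v
    have a1 := F.er (v + 1)
    have a2 := F.er (v + 2)
    have a3 := F.er (v + 3)
    have a4 := F.ec v
    rw [p1] at a1
    rw [p2] at a2
    rw [p3] at a3
    have b0 := P_sub F hs v (hb v) 0 2
    have b1 := P_sub F hs (v + 1) (hb _) 0 1
    have b2 := P_sub F hs (v + 2) (hb _) 0 1
    have b3 := P_sub F hs (v + 3) (hb _) 0 1
    have b4 := P_sub F hs (v + 4) (hb _) 2 1
    linarith
  rw [key F, key F']

/-- The tight cycles have zero period. -/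
lemma K_zero (hs : Small ηl ηr ηc)
    (H : ∀ w : ZMod 8, ∃ F : Flow ηl ηr ηc, 1 ≤ F.B w 0 0 + F.B w 1 0 + F.B w 2 0)
    (F : Flow ηl ηr ηc) (v : ZMod 8) :
    F.r v + F.r (v + 1) + F.r (v + 2) + F.r (v + 3) + F.c v = 0 := by
  have hb := b_zero hs H
  apply le_antisymm
  · obtain ⟨F', hF'⟩ := H (v + 4)
    rw [K_eq F F' hs hb v]
    have h1 := F'.target hs hF' 2
    have h1R : (F'.N (v + 4) 2 : ℝ) = 1 := by exact_mod_cast h1
    have h2 := F'.hc (v + 4)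
    rw [h1R, F'.hcs] at h2
    have c0 := F'.r_le hs v
    have c1 := F'.r_le hs (v + 1)
    have c2 := F'.r_le hs (v + 2)
    have c3 := F'.r_le hs (v + 3)
    linarith
  · obtain ⟨F', hF'⟩ := H v
    rw [K_eq F F' hs hb v]
    have h1 := F'.target hs hF' 2
    have h1R : (F'.N v 2 : ℝ) = 1 := by exact_mod_cast h1
    have h2 := F'.hc v
    rw [h1R] at h2
    have c0 := F'.le_r hs v
    have c1 := F'.le_r hs (v + 1)
    have c2 := F'.le_r hs (v + 2)
    have c3 := F'.le_r hs (v + 3)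
    linarith

/-- **The core.** If for every gadget `w` there is a flow reaching the first centre of `w`, then the
small perturbation is a coboundary. -/
theorem core (hs : Small ηl ηr ηc)
    (H : ∀ w : ZMod 8, ∃ F : Flow ηl ηr ηc, 1 ≤ F.B w 0 0 + F.B w 1 0 + F.B w 2 0) :
    ∃ (Gp : ZMod 8 → Fin 3 → ℝ) (Gu : ZMod 8 → Fin 2 → ℝ),
      (∀ v i j, ηl v i j = Gp v i - Gu v j) ∧ (∀ v, ηr v = Gp v 0 - Gp (v + 1) 1) ∧
      (∀ v, ηc v = Gp (v + 4) 2 - Gp v 2) := by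
  obtain ⟨F, -⟩ := H 0
  have hb := b_zero hs H
  have hK := K_zero hs H F
  have hsum : ∀ v, F.r v + F.r (v + 1) + F.r (v + 2) + F.r (v + 3) + F.r (v + 4) + F.r (v + 5) +
      F.r (v + 6) + F.r (v + 7) = 0 := by
    intro v
    have h1 := hK v
    have h2 := hK (v + 4)
    rw [F.hcs, show v + 4 + 1 = v + 5 by ring, show v + 4 + 2 = v + 6 by ring,
      show v + 4 + 3 = v + 7 by ring] at h2
    linarith
  let τ : ZMod 8 → ℝ := fun v => (7 * F.r v + 6 * F.r (v + 1) + 5 * F.r (v + 2) +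
    4 * F.r (v + 3) + 3 * F.r (v + 4) + 2 * F.r (v + 5) + F.r (v + 6)) / 8
  have hτ : ∀ v, τ v - τ (v + 1) = F.r v := by
    intro v
    have h := hsum v
    simp only [τ]
    rw [show v + 1 + 1 = v + 2 by ring, show v + 1 + 2 = v + 3 by ring,
      show v + 1 + 3 = v + 4 by ring, show v + 1 + 4 = v + 5 by ring,
      show v + 1 + 5 = v + 6 by ring, show v + 1 + 6 = v + 7 by ring]
    linarith
  have hτ4 : ∀ v, τ (v + 4) - τ v = F.c v := by
    intro v
    have h0 := hτ v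
    have h1 := hτ (v + 1)
    have h2 := hτ (v + 2)
    have h3 := hτ (v + 3)
    rw [show v + 1 + 1 = v + 2 by ring] at h1
    rw [show v + 2 + 1 = v + 3 by ring] at h2
    rw [show v + 3 + 1 = v + 4 by ring] at h3
    have := hK v
    linarith
  refine ⟨fun v i => τ v - F.P v i, fun v j => τ v - F.I v 0 j - F.U v j, ?_, ?_, ?_⟩
  · intro v i j
    have h1 := F.eI v i j
    have h2 := I_eq F hs v (hb v) i 0 j
    simp only
    linarith
  · intro v
    have h1 := F.er v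
    have h2 := hτ v
    simp only
    linarith
  · intro v
    have h1 := F.ec v
    have h2 := hτ4 v
    simp only
    linarith

end Pool.Agent.TropBN
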