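import Mathlib

/-!
# Metric graphs, divisors, `Pic⁰`, the Baker-Norine rank and the loci `W^λ(Γ, w)`

Definitions for MP_ee5a6e_co.
-/

namespace Pool.Agent.TropBN

open Filter Topology

/-- A compact connected metric graph, given by a finite model: a finite set `V` of vertices and a
finite set `E` of edges (loops and parallel edges are allowed); the edge `e` is a segment of length
`len e > 0` glued to the vertices `src e` (at `0`) and `tgt e` (at `len e`); any two vertices are
joined by a path of edges. -/
structure MetricGraph where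
  V : Type
  E : Type
  fintypeV : Fintype V
  fintypeE : Fintype E
  decEqV : DecidableEq V
  decEqE : DecidableEq E
  src : E → V
  tgt : E → V
  len : E → ℝ
  len_pos : ∀ e, 0 < len e
  nonempty : Nonempty V
  conn : ∀ u v : V, Relation.EqvGen (fun a b => ∃ e, src e = a ∧ tgt e = b) u v

namespace MetricGraph

attribute [instance] MetricGraph.fintypeV MetricGraph.fintypeE MetricGraph.decEqV
  MetricGraph.decEqE MetricGraph.nonempty

variable (Γ : MetricGraph)

/-- The genus (first Betti number) of a connected metric graph. -/
def genus : ℤ := (Fintype.card Γ.E : ℤ) - (Fintype.card Γ.V : ℤ) + 1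

/-- The points of `Γ`: the vertices, and the points in the interiors of the edges (the interior
point of `e` at distance `t` from `src e`, where `0 < t < len e`). -/
def Point : Type := Γ.V ⊕ (Σ e : Γ.E, Set.Ioo (0 : ℝ) (Γ.len e))

/-- A vertex as a point of `Γ`. -/
def vert (v : Γ.V) : Γ.Point := Sum.inl v

/-- The interior point of the edge `e` at distance `t` from `src e`. -/
def inner (e : Γ.E) (t : Set.Ioo (0 : ℝ) (Γ.len e)) : Γ.Point := Sum.inr ⟨e, t⟩

/-- The point at distance `t` from `src e` on the closed edge `e`: it is `src e` for `t ≤ 0` and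
`tgt e` for `t ≥ len e`. -/
noncomputable def pt (e : Γ.E) (t : ℝ) : Γ.Point :=
  if h : t ≤ 0 then Γ.vert (Γ.src e)
  else if h' : Γ.len e ≤ t then Γ.vert (Γ.tgt e)
  else Γ.inner e ⟨t, not_le.1 h, not_le.1 h'⟩

/-- Divisors: finite formal `ℤ`-combinations of points. -/
abbrev Div : Type := Γ.Point →₀ ℤ

/-- The degree of a divisor. -/
def deg (D : Γ.Div) : ℤ := D.sum fun _ n => n

/-- `f` has outgoing slope `m` at the point at position `t` of the edge `e`, in the direction of
`tgt e`: `f` is affine with slope `m` on some segment `[t, t + h)` of `e`, `h > 0`. -/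
def OutSlopeFwd (f : Γ.Point → ℝ) (e : Γ.E) (t : ℝ) (m : ℤ) : Prop :=
  ∀ᶠ h in 𝓝[>] (0 : ℝ), f (Γ.pt e (t + h)) = f (Γ.pt e t) + m * h

/-- `f` has outgoing slope `m` at the point at position `t` of the edge `e`, in the direction of
`src e`. -/
def OutSlopeBwd (f : Γ.Point → ℝ) (e : Γ.E) (t : ℝ) (m : ℤ) : Prop :=
  ∀ᶠ h in 𝓝[>] (0 : ℝ), f (Γ.pt e (t - h)) = f (Γ.pt e t) + m * h

/-- `f : Γ → ℝ` is a continuous piecewise-linear function with integer slopes, and `D` is its
divisor: at every point of `Γ` and in every direction at that point, `f` is affine with integer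
slope near the point (on a closed edge this says, by compactness, that `f` is continuous and
piecewise linear with finitely many pieces of integer slopes), and the coefficient of `D` at a
point is the sum of the outgoing slopes of `f` there, over the two directions at an interior point
of an edge, and over all the edge ends at a vertex. -/
def IsDivOf (f : Γ.Point → ℝ) (D : Γ.Div) : Prop :=
  ∃ p q : Γ.E → ℝ → ℤ,
    (∀ e t, 0 ≤ t → t < Γ.len e → Γ.OutSlopeFwd f e t (p e t)) ∧
    (∀ e t, 0 < t → t ≤ Γ.len e → Γ.OutSlopeBwd f e t (q e t)) ∧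
    (∀ (e : Γ.E) (t : Set.Ioo (0 : ℝ) (Γ.len e)), D (Γ.inner e t) = p e t + q e t) ∧
    (∀ v : Γ.V, D (Γ.vert v) =
      ∑ e, (if Γ.src e = v then p e 0 else 0) + ∑ e, (if Γ.tgt e = v then q e (Γ.len e) else 0))

/-- Linear equivalence of divisors. -/
def LinEquiv (D D' : Γ.Div) : Prop := ∃ f : Γ.Point → ℝ, Γ.IsDivOf f (D' - D)

/-- `D - E` is linearly equivalent to an effective divisor for every effective `E` of
degree `k`. -/
def RankCond (D : Γ.Div) (k : ℕ) : Prop :=
  ∀ E : Γ.Div, 0 ≤ E → Γ.deg E = k → ∃ E' : Γ.Div, 0 ≤ E' ∧ Γ.LinEquiv (D - E) E'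

open Classical in
/-- The Baker-Norine rank: `-1` if `D` is not linearly equivalent to an effective divisor, and
otherwise the largest `k ≥ 0` such that `D - E` is linearly equivalent to an effective divisor for
every effective `E` of degree `k`. -/
noncomputable def rank (D : Γ.Div) : ℤ :=
  if ∃ E' : Γ.Div, 0 ≤ E' ∧ Γ.LinEquiv D E' then ((sSup {k : ℕ | Γ.RankCond D k} : ℕ) : ℤ) else -1

/-! ### Integral chains and the Abel-Jacobi map

An integral `1`-chain on `Γ` is an integer-valued step function `a_e` on each edge `e`; if its
boundary is the divisor `D`, then it is determined by `D` and the initial values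
`s e = a_e (0+)`: `a_e (t) = s e - ∑ D (x)`, the sum over the interior points `x < t` of `e`. -/

/-- `1` at the interior points of the edge `e`, and `0` elsewhere. -/
def onEdge (e : Γ.E) : Γ.Point → ℤ
  | Sum.inl _ => 0
  | Sum.inr ⟨e', _⟩ => if e' = e then 1 else 0

/-- `len e - t` at the interior point of the edge `e` at position `t`, and `0` elsewhere. -/
noncomputable def remOn (e : Γ.E) : Γ.Point → ℝ
  | Sum.inl _ => 0
  | Sum.inr ⟨e', t⟩ => if e' = e then Γ.len e' - t else 0

/-- The sum of `D (x)` over the interior points `x` of the edge `e`. -/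
def degOn (e : Γ.E) (D : Γ.Div) : ℤ := D.sum fun x n => n * Γ.onEdge e x

/-- The sum of `D (x) * (len e - x)` over the interior points `x` of the edge `e`. -/
noncomputable def momOn (e : Γ.E) (D : Γ.Div) : ℝ := D.sum fun x n => (n : ℝ) * Γ.remOn e x

/-- The divisor `D` is the boundary of the integral chain with the initial values `s` (and with
the jumps given by `D` at the interior points of the edges). -/
def IsBoundary (s : Γ.E → ℤ) (D : Γ.Div) : Prop :=
  ∀ v : Γ.V, D (Γ.vert v) =
    ∑ e, (if Γ.tgt e = v then s e - Γ.degOn e D else 0) - ∑ e, (if Γ.src e = v then s e else 0)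

/-- The integrals, over the edges of `Γ`, of the integral chain with the initial values `s` and
with boundary `D`. -/
noncomputable def integral (s : Γ.E → ℤ) (D : Γ.Div) : Γ.E → ℝ :=
  fun e => s e * Γ.len e - Γ.momOn e D

end MetricGraph

end Pool.Agent.TropBN
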