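import Pool.Agent.TropBN.Graph
import Pool.Agent.TropBN.Core2

/-!
# From effective divisors to flows
-/

namespace Pool.Agent.TropBN

open MetricGraph

section general

variable {Γ : MetricGraph}

lemma degOn_sum {ι : Type} (s : Finset ι) (e : Γ.E) (D : ι → Γ.Div) :
    Γ.degOn e (∑ i ∈ s, D i) = ∑ i ∈ s, Γ.degOn e (D i) := by
  classical
  induction s using Finset.induction with
  | empty => simp [degOn_zero]
  | insert a s ha ih => rw [Finset.sum_insert ha, Finset.sum_insert ha, degOn_add, ih]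

lemma momOn_sum {ι : Type} (s : Finset ι) (e : Γ.E) (D : ι → Γ.Div) :
    Γ.momOn e (∑ i ∈ s, D i) = ∑ i ∈ s, Γ.momOn e (D i) := by
  classical
  induction s using Finset.induction with
  | empty => simp [momOn_zero]
  | insert a s ha ih => rw [Finset.sum_insert ha, Finset.sum_insert ha, momOn_add, ih]

lemma remOn_bounds (e : Γ.E) (x : Γ.Point) :
    0 ≤ Γ.remOn e x ∧ Γ.remOn e x ≤ Γ.len e * (Γ.onEdge e x : ℝ) := by
  rcases x with v | ⟨e', t⟩
  · have h1 : Γ.remOn e (Sum.inl v) = 0 := rfl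
    have h2 : Γ.onEdge e (Sum.inl v) = 0 := rfl
    rw [h1, h2]
    simp
  · have h1 : Γ.remOn e (Sum.inr ⟨e', t⟩) = if e' = e then Γ.len e' - t else 0 := rfl
    have h2 : Γ.onEdge e (Sum.inr ⟨e', t⟩) = if e' = e then 1 else 0 := rfl
    rw [h1, h2]
    by_cases h : e' = e
    · subst h
      simp only [if_true]
      have h3 := t.2.1
      have h4 := t.2.2
      constructor
      · linarith
      · push_cast
        linarith
    · simp [h]

lemma momOn_nonneg (e : Γ.E) {D : Γ.Div} (hD : 0 ≤ D) : 0 ≤ Γ.momOn e D := by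
  unfold momOn
  apply Finset.sum_nonneg
  intro x _
  have h1 : (0 : ℤ) ≤ D x := hD x
  have h2 : (0 : ℝ) ≤ D x := by exact_mod_cast h1
  exact mul_nonneg h2 (remOn_bounds e x).1

lemma momOn_le (e : Γ.E) {D : Γ.Div} (hD : 0 ≤ D) : Γ.momOn e D ≤ Γ.len e * (Γ.degOn e D : ℝ) := by
  unfold momOn degOn
  rw [Finsupp.sum, Finsupp.sum]
  push_cast
  rw [Finset.mul_sum]
  apply Finset.sum_le_sum
  intro x _
  have h1 : (0 : ℤ) ≤ D x := hD x
  have h2 : (0 : ℝ) ≤ D x := by exact_mod_cast h1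
  have h3 := mul_le_mul_of_nonneg_left (remOn_bounds e x).2 h2
  calc (D x : ℝ) * Γ.remOn e x ≤ (D x : ℝ) * (Γ.len e * (Γ.onEdge e x : ℝ)) := h3
    _ = Γ.len e * ((D x : ℝ) * (Γ.onEdge e x : ℝ)) := by ring

lemma onEdge_inner' (e e' : Γ.E) (t : Set.Ioo (0 : ℝ) (Γ.len e')) :
    Γ.onEdge e (Γ.inner e' t) = if e' = e then 1 else 0 := rfl

lemma remOn_inner' (e e' : Γ.E) (t : Set.Ioo (0 : ℝ) (Γ.len e')) :
    Γ.remOn e (Γ.inner e' t) = if e' = e then Γ.len e' - t else 0 := rfl

end general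

lemma pt_rim (v : ZMod 8) : Gr.pt (rim v) 1 = Gr.inner (rim v) ⟨1, by
    constructor
    · norm_num
    · rw [len_rim]; norm_num⟩ :=
  MetricGraph.pt_inner (rim v) ⟨1, _⟩

lemma pt_chord (k : Fin 4) : Gr.pt (chord k) 4 = Gr.inner (chord k) ⟨4, by
    constructor
    · norm_num
    · rw [len_chord]; norm_num⟩ :=
  MetricGraph.pt_inner (chord k) ⟨4, _⟩

lemma rim_inj (v v' : ZMod 8) : rim v = rim v' ↔ v = v' := by
  unfold rim
  constructor
  · intro h
    exact Sum.inl.inj (Sum.inr.inj h)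
  · rintro rfl
    rfl

lemma chord_inj (v v' : Fin 4) : chord v = chord v' ↔ v = v' := by
  unfold chord
  constructor
  · intro h
    exact Sum.inr.inj (Sum.inr.inj h)
  · rintro rfl
    rfl

lemma rim_ne_chord (v : ZMod 8) (k : Fin 4) : rim v ≠ chord k := by
  intro h
  have := Sum.inr.inj h
  cases this

lemma rim_ne_leg (v w : ZMod 8) (i : Fin 3) (j : Fin 2) : rim v ≠ leg w i j := by
  intro h
  cases h

lemma chord_ne_leg (k : Fin 4) (w : ZMod 8) (i : Fin 3) (j : Fin 2) : chord k ≠ leg w i j := by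
  intro h
  cases h

lemma degOn_D0_leg (v : ZMod 8) (i : Fin 3) (j : Fin 2) : Gr.degOn (leg v i j) D0 = 0 := by
  unfold D0
  rw [degOn_add, degOn_sum, degOn_sum]
  simp [degOn_single, pt_rim, pt_chord, onEdge_inner', rim_ne_leg, chord_ne_leg]

lemma momOn_D0_leg (v : ZMod 8) (i : Fin 3) (j : Fin 2) : Gr.momOn (leg v i j) D0 = 0 := by
  unfold D0
  rw [momOn_add, momOn_sum, momOn_sum]
  simp [momOn_single, pt_rim, pt_chord, remOn_inner', rim_ne_leg, chord_ne_leg]

lemma degOn_D0_rim (v : ZMod 8) : Gr.degOn (rim v) D0 = 1 := by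
  unfold D0
  rw [degOn_add, degOn_sum, degOn_sum]
  have : ∀ k : Fin 4, ¬ chord k = rim v := fun k h => rim_ne_chord v k h.symm
  simp [degOn_single, pt_rim, pt_chord, onEdge_inner', rim_inj, this]

lemma momOn_D0_rim (v : ZMod 8) : Gr.momOn (rim v) D0 = 1 := by
  unfold D0
  rw [momOn_add, momOn_sum, momOn_sum]
  have : ∀ k : Fin 4, ¬ chord k = rim v := fun k h => rim_ne_chord v k h.symm
  simp [momOn_single, pt_rim, pt_chord, remOn_inner', rim_inj, this, len_rim]
  norm_num

lemma degOn_D0_chord (k : Fin 4) : Gr.degOn (chord k) D0 = 1 := by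
  unfold D0
  rw [degOn_add, degOn_sum, degOn_sum]
  have : ∀ v, ¬ rim v = chord k := fun v h => rim_ne_chord v k h
  simp [degOn_single, pt_rim, pt_chord, onEdge_inner', chord_inj, this]

lemma momOn_D0_chord (k : Fin 4) : Gr.momOn (chord k) D0 = 4 := by
  unfold D0
  rw [momOn_add, momOn_sum, momOn_sum]
  have : ∀ v, ¬ rim v = chord k := fun v h => rim_ne_chord v k h
  simp [momOn_single, pt_rim, pt_chord, remOn_inner', chord_inj, this, len_chord]
  norm_num

lemma inner_ne_vert {Γ : MetricGraph} (e : Γ.E) (t : Set.Ioo (0 : ℝ) (Γ.len e)) (v : Γ.V) :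
    Γ.inner e t ≠ Γ.vert v := by
  intro h
  cases h

lemma D0_vert (x : Gr.V) : D0 (Gr.vert x) = 0 := by
  unfold D0
  simp [Finsupp.single_apply, pt_rim, pt_chord, inner_ne_vert]

section sel

variable {M : Type} [AddCommMonoid M] (f : Fin 4 → M) (k₀ : Fin 4)

lemma sel_a : ∑ k : Fin 4, (if (k.val : ZMod 8) = (k₀.val : ZMod 8) then f k else 0) = f k₀ := by
  have h : ∀ k k₀ : Fin 4, (k.val : ZMod 8) = (k₀.val : ZMod 8) ↔ k = k₀ := by decide
  simp [h]

lemma sel_b : ∑ k : Fin 4, (if (k.val : ZMod 8) + 4 = (k₀.val : ZMod 8) then f k else 0) = 0 := by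
  have h : ∀ k k₀ : Fin 4, ¬ (k.val : ZMod 8) + 4 = (k₀.val : ZMod 8) := by decide
  simp [h]

lemma sel_c : ∑ k : Fin 4, (if (k.val : ZMod 8) = (k₀.val : ZMod 8) + 4 then f k else 0) = 0 := by
  have h : ∀ k k₀ : Fin 4, ¬ (k.val : ZMod 8) = (k₀.val : ZMod 8) + 4 := by decide
  simp [h]

lemma sel_d : ∑ k : Fin 4, (if (k.val : ZMod 8) + 4 = (k₀.val : ZMod 8) + 4 then f k else 0) =
    f k₀ := by
  have h : ∀ k k₀ : Fin 4, (k.val : ZMod 8) + 4 = (k₀.val : ZMod 8) + 4 ↔ k = k₀ := by decide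
  simp [h]

end sel

/-- The signed chord function: `X k` at `k + 4` and `-X k` at `k`. -/
noncomputable def cf (X : Fin 4 → ℝ) (v : ZMod 8) : ℝ :=
  ∑ k : Fin 4, (if (k.val : ZMod 8) + 4 = v then X k else 0) -
    ∑ k : Fin 4, (if (k.val : ZMod 8) = v then X k else 0)

lemma cf_lo (X : Fin 4 → ℝ) (k : Fin 4) : cf X k.val = -X k := by
  unfold cf
  rw [sel_a, sel_b]
  ring

lemma cf_hi (X : Fin 4 → ℝ) (k : Fin 4) : cf X (k.val + 4) = X k := by
  unfold cf
  rw [sel_c, sel_d]
  ring

section extract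

variable {η : Gr.E → ℝ} {E : Gr.Div} {s : Gr.E → ℤ} {F : Gr.V → ℝ}

/-- The flow given by an effective divisor `E` and a chain with boundary `E - D₀`. -/
noncomputable def flowOf (hE : 0 ≤ E) (hs : Gr.IsBoundary s (E - D0))
    (hF : ∀ e, Gr.integral s (E - D0) e = F (Gr.src e) - F (Gr.tgt e) + η e) :
    Flow (fun v i j => η (leg v i j)) (fun v => η (rim v)) (cf fun k => η (chord k)) where
  N := fun v i => (if i = 0 then -s (rim v) else 0) +
    (if i = 1 then s (rim (v - 1)) - Gr.degOn (rim (v - 1)) (E - D0) else 0) +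
    (if i = 2 then ∑ k : Fin 4, (if (k.val : ZMod 8) + 4 = v then
        s (chord k) - Gr.degOn (chord k) (E - D0) else 0) -
      ∑ k : Fin 4, (if (k.val : ZMod 8) = v then s (chord k) else 0) else 0)
  A := fun v i j => s (leg v i j)
  B := fun v i j => s (leg v i j) - Gr.degOn (leg v i j) (E - D0)
  I := fun v i j => Gr.integral s (E - D0) (leg v i j)
  r := fun v => Gr.integral s (E - D0) (rim v)
  c := cf fun k => Gr.integral s (E - D0) (chord k)
  P := fun v i => F (port v i)
  U := fun v j => F (cen v j)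
  hBI := fun v i j => by
    have h := momOn_le (leg v i j) hE
    rw [len_leg, one_mul] at h
    simp only [integral, degOn_sub, momOn_sub, degOn_D0_leg, momOn_D0_leg, len_leg]
    push_cast
    linarith
  hIA := fun v i j => by
    have h := momOn_nonneg (leg v i j) hE
    simp only [integral, momOn_sub, momOn_D0_leg, len_leg]
    linarith
  hN := fun v i => by
    have h := hs (port v i)
    rw [sum_src_port, sum_tgt_port, Finsupp.sub_apply, D0_vert] at h
    have h0 : (0 : ℤ) ≤ E (Gr.vert (port v i)) := hE _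
    fin_cases i
    · simp at h h0 ⊢
      linarith
    · simp at h h0 ⊢
      linarith
    · simp at h h0 ⊢
      linarith
  hC := fun v j => by
    have h := hs (cen v j)
    rw [sum_src_cen, sum_tgt_cen, Finsupp.sub_apply, D0_vert] at h
    have h0 : (0 : ℤ) ≤ E (Gr.vert (cen v j)) := hE _
    linarith
  hr1 := fun v => by
    have h := momOn_le (rim v) hE
    rw [len_rim] at h
    simp [integral, degOn_sub, momOn_sub, degOn_D0_rim, momOn_D0_rim, len_rim]
    linarith
  hr0 := fun v => by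
    have h := momOn_nonneg (rim v) hE
    simp [integral, degOn_sub, momOn_sub, degOn_D0_rim, momOn_D0_rim, len_rim]
    linarith
  hc := fun v => by
    obtain ⟨k, rfl | rfl⟩ := cases8 v
    · rw [cf_lo]
      have h := momOn_nonneg (chord k) hE
      simp only [Fin.isValue, sel_a, sel_b, if_true, integral, degOn_sub, momOn_sub,
        degOn_D0_chord, momOn_D0_chord, len_chord]
      simp
      linarith
    · rw [cf_hi]
      have h := momOn_le (chord k) hE
      rw [len_chord] at h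
      simp only [Fin.isValue, sel_c, sel_d, if_true, integral, degOn_sub, momOn_sub,
        degOn_D0_chord, momOn_D0_chord, len_chord]
      simp
      linarith
  hcs := fun v => by
    obtain ⟨k, rfl | rfl⟩ := cases8 v
    · rw [cf_lo, cf_hi]
      ring
    · rw [z44, cf_lo, cf_hi]
  eI := fun v i j => hF (leg v i j)
  er := fun v => hF (rim v)
  ec := fun v => by
    obtain ⟨k, rfl | rfl⟩ := cases8 v
    · rw [cf_lo, cf_lo]
      have := hF (chord k)
      rw [src_chord, tgt_chord] at this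
      linarith
    · rw [cf_hi, cf_hi, z44]
      have := hF (chord k)
      rw [src_chord, tgt_chord] at this
      linarith

lemma flowOf_target (hE : 0 ≤ E) (hs : Gr.IsBoundary s (E - D0))
    (hF : ∀ e, Gr.integral s (E - D0) e = F (Gr.src e) - F (Gr.tgt e) + η e) (w : ZMod 8)
    (hw : 1 ≤ E (Gr.vert (cen w 0))) :
    1 ≤ (flowOf hE hs hF).B w 0 0 + (flowOf hE hs hF).B w 1 0 + (flowOf hE hs hF).B w 2 0 := by
  have h := hs (cen w 0)
  rw [sum_src_cen, sum_tgt_cen, Finsupp.sub_apply, D0_vert] at h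
  change 1 ≤ (s (leg w 0 0) - Gr.degOn (leg w 0 0) (E - D0)) +
    (s (leg w 1 0) - Gr.degOn (leg w 1 0) (E - D0)) +
    (s (leg w 2 0) - Gr.degOn (leg w 2 0) (E - D0))
  linarith

end extract

end Pool.Agent.TropBN
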