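import Pool.Agent.TropBN.Extract

/-!
# `D₀` is isolated
-/

namespace Pool.Agent.TropBN

open MetricGraph Topology

section general

variable {Γ : MetricGraph}

/-- Basic open neighbourhoods in `Pic⁰(Γ)`. -/
def nbhd (P : Γ.Pic0) (ε : ℝ) : Set Γ.Pic0 :=
  {Q | ∃ η : Γ.E → ℝ, (∀ e, |η e| < ε) ∧ Γ.aj Q = Γ.aj P + QuotientAddGroup.mk η}

lemma isOpen_nbhd (P : Γ.Pic0) {ε : ℝ} : IsOpen (nbhd P ε) := by
  have h1 : IsOpen {η : Γ.E → ℝ | ∀ e, |η e| < ε} := by
    have : {η : Γ.E → ℝ | ∀ e, |η e| < ε} = ⋂ e, {η | |η e| < ε} := by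
      ext η
      simp
    rw [this]
    exact isOpen_iInter_of_finite fun e =>
      isOpen_lt (continuous_abs.comp (continuous_apply e)) continuous_const
  have h2 : IsOpen ((fun η : Γ.E → ℝ => (QuotientAddGroup.mk η : Γ.Torus)) ''
      {η : Γ.E → ℝ | ∀ e, |η e| < ε}) := QuotientAddGroup.isOpenMap_coe _ h1
  have h3 : IsOpen ((fun t : Γ.Torus => Γ.aj P + t) '' ((fun η : Γ.E → ℝ =>
      (QuotientAddGroup.mk η : Γ.Torus)) '' {η : Γ.E → ℝ | ∀ e, |η e| < ε})) :=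
    isOpenMap_add_left _ _ h2
  have h4 := h3.preimage (continuous_induced_dom : Continuous Γ.aj)
  have h5 : nbhd P ε = Γ.aj ⁻¹' ((fun t : Γ.Torus => Γ.aj P + t) '' ((fun η : Γ.E → ℝ =>
      (QuotientAddGroup.mk η : Γ.Torus)) '' {η : Γ.E → ℝ | ∀ e, |η e| < ε})) := by
    refine Set.ext fun Q => ⟨?_, ?_⟩
    · rintro ⟨η, h, hQ⟩
      exact ⟨_, ⟨η, h, rfl⟩, hQ.symm⟩
    · rintro ⟨_, ⟨η, h, rfl⟩, hQ⟩
      exact ⟨η, h, hQ.symm⟩
  rw [h5]
  exact h4

lemma mem_nbhd (P : Γ.Pic0) {ε : ℝ} (hε : 0 < ε) : P ∈ nbhd P ε := by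
  refine ⟨0, fun e => by simpa using hε, ?_⟩
  have : (QuotientAddGroup.mk (0 : Γ.E → ℝ) : Γ.Torus) = 0 := rfl
  rw [this, add_zero]

/-- A class near `cls D₁` is represented by divisors `D` such that `D - D₁` is the boundary of a
chain with integrals `η + dF`, `η` small. -/
lemma exists_chain_of_mem_nbhd {D D₁ : Γ.Div0} {ε : ℝ} (h : Γ.cls D ∈ nbhd (Γ.cls D₁) ε) :
    ∃ (η : Γ.E → ℝ) (s : Γ.E → ℤ) (F : Γ.V → ℝ), (∀ e, |η e| < ε) ∧
      Γ.IsBoundary s ((D : Γ.Div) - (D₁ : Γ.Div)) ∧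
      ∀ e, Γ.integral s ((D : Γ.Div) - (D₁ : Γ.Div)) e = F (Γ.src e) - F (Γ.tgt e) + η e := by
  obtain ⟨η, hη, h⟩ := h
  have h1 : Γ.ajFun (D - D₁) = QuotientAddGroup.mk η := by
    have : Γ.aj (Γ.cls (D - D₁)) = QuotientAddGroup.mk η := by
      rw [map_sub, map_sub, h]
      abel
    exact this
  obtain ⟨s, hs⟩ := Γ.exists_isBoundary _ (D - D₁).2
  rw [aj_eq hs, QuotientAddGroup.eq] at h1
  obtain ⟨F, z, hz, h⟩ := h1
  refine ⟨η, s + z, F, hη, ?_, ?_⟩
  · have := hs.add hz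
    rwa [add_zero, AddSubgroup.coe_sub] at this
  · intro e
    have h2 := h e
    simp only [integral, Pi.add_apply, Pi.neg_apply, AddSubgroup.coe_sub] at h2 ⊢
    push_cast
    linarith

end general

/-- The class of a divisor near `D₀ - n x` which has rank at least one after adding `n x` is the
class of `D₀ - n x`. -/
theorem isolated_aux {D D₁ : Gr.Div0} {T : Gr.Div} (hD₁ : (D₁ : Gr.Div) + T = D0)
    (h : Gr.cls D ∈ nbhd (Gr.cls D₁) (1 / 100)) (hr : Gr.RankCond ((D : Gr.Div) + T) 1) :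
    Gr.cls D = Gr.cls D₁ := by
  obtain ⟨η, s, F, hη, hs, hF⟩ := exists_chain_of_mem_nbhd h
  have hDT : (D : Gr.Div) - (D₁ : Gr.Div) = ((D : Gr.Div) + T) - D0 := by
    rw [← hD₁]
    abel
  have hsmall : Flow.Small (fun v i j => η (leg v i j)) (fun v => η (rim v))
      (cf fun k => η (chord k)) := by
    refine ⟨fun v i j => (hη _).le, fun v => (hη _).le, fun v => ?_⟩
    obtain ⟨k, rfl | rfl⟩ := cases8 v
    · rw [cf_lo, abs_neg]
      exact (hη _).le
    · rw [cf_hi]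
      exact (hη _).le
  have H : ∀ w : ZMod 8, ∃ F : Flow (fun v i j => η (leg v i j)) (fun v => η (rim v))
      (cf fun k => η (chord k)), 1 ≤ F.B w 0 0 + F.B w 1 0 + F.B w 2 0 := by
    intro w
    obtain ⟨E', hE', f, hf⟩ := hr (Finsupp.single (Gr.vert (cen w 0)) 1)
      (Finsupp.single_nonneg.2 zero_le_one) (by rw [deg_single]; rfl)
    obtain ⟨s', hs', hF'⟩ := exists_isBoundary_of_isDivOf hf
    have hE : 0 ≤ E' + Finsupp.single (Gr.vert (cen w 0)) 1 :=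
      add_nonneg hE' (Finsupp.single_nonneg.2 zero_le_one)
    have heq : ((D : Gr.Div) - (D₁ : Gr.Div)) +
        (E' - ((D : Gr.Div) + T - Finsupp.single (Gr.vert (cen w 0)) 1)) =
        E' + Finsupp.single (Gr.vert (cen w 0)) 1 - D0 := by
      rw [hDT]
      abel
    have hb := hs.add hs'
    have hi := integral_add s s' ((D : Gr.Div) - (D₁ : Gr.Div))
      (E' - ((D : Gr.Div) + T - Finsupp.single (Gr.vert (cen w 0)) 1))
    rw [heq] at hb hi
    have hFF : ∀ e, Gr.integral (s + s') (E' + Finsupp.single (Gr.vert (cen w 0)) 1 - D0) e =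
        (fun v => F v + f (Gr.vert v)) (Gr.src e) - (fun v => F v + f (Gr.vert v)) (Gr.tgt e) +
          η e := by
      intro e
      rw [hi, Pi.add_apply, hF e, hF' e]
      simp only
      ring
    refine ⟨flowOf (F := fun v => F v + f (Gr.vert v)) hE hb hFF,
      flowOf_target (F := fun v => F v + f (Gr.vert v)) hE hb hFF w ?_⟩
    rw [Finsupp.add_apply, Finsupp.single_eq_same]
    have : (0 : ℤ) ≤ E' (Gr.vert (cen w 0)) := hE' _
    omega
  obtain ⟨Gp, Gu, h1, h2, h3⟩ := core hsmall H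
  let G : Gr.V → ℝ := fun x => match x with
    | (v, Sum.inl i) => Gp v i
    | (v, Sum.inr j) => Gu v j
  have hη' : ∀ e : Gr.E, η e = G (Gr.src e) - G (Gr.tgt e) := by
    intro e
    rcases e with ⟨v, i, j⟩ | v | k
    · exact h1 v i j
    · exact h2 v
    · have h4 := h3 k.val
      rw [cf_lo] at h4
      have h5 : η (chord k) = Gp k.val 2 - Gp (k.val + 4) 2 := by linarith
      exact h5
  obtain ⟨f, hf, -⟩ := exists_isDivOf (F := fun v => F v + G v) hs (by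
    intro e
    rw [hF e, hη' e]
    ring)
  have : Gr.cls (D - D₁) = 0 := (QuotientAddGroup.eq_zero_iff (D - D₁)).2 ⟨f, hf⟩
  rw [map_sub, sub_eq_zero] at this
  exact this

end Pool.Agent.TropBN
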