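import Pool.Agent.TropBN.Chain

/-!
# `Pic⁰(Γ)` with its topology of a real torus, the loci `W^λ(Γ, w)` and local dimension
-/

namespace Pool.Agent.TropBN

open Filter Topology

namespace MetricGraph

section
variable (Γ : MetricGraph)

theorem div0_add {a b : Γ.Div} (ha : Γ.deg a = 0) (hb : Γ.deg b = 0) : Γ.deg (a + b) = 0 := by
  rw [deg_add, ha, hb, add_zero]

theorem div0_neg {a : Γ.Div} (ha : Γ.deg a = 0) : Γ.deg (-a) = 0 := by
  rw [deg_neg, ha, neg_zero]

/-- The group of divisors of degree `0`. -/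
def Div0 : AddSubgroup Γ.Div where
  carrier := {D | Γ.deg D = 0}
  zero_mem' := Γ.deg_zero
  add_mem' := Γ.div0_add
  neg_mem' := Γ.div0_neg

theorem prin_zero : ∃ f : Γ.Point → ℝ, Γ.IsDivOf f ((0 : Γ.Div0) : Γ.Div) := by
  refine ⟨fun _ => 0, fun _ _ => 0, fun _ _ => 0, ?_, ?_, ?_, ?_⟩
  · intro e t _ _
    exact Filter.Eventually.of_forall fun h => by simp
  · intro e t _ _
    exact Filter.Eventually.of_forall fun h => by simp
  · intro e t
    simp
  · intro v
    simp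

theorem prin_add {a b : Γ.Div0} (ha : ∃ f : Γ.Point → ℝ, Γ.IsDivOf f (a : Γ.Div))
    (hb : ∃ f : Γ.Point → ℝ, Γ.IsDivOf f (b : Γ.Div)) :
    ∃ f : Γ.Point → ℝ, Γ.IsDivOf f ((a + b : Γ.Div0) : Γ.Div) := by
  obtain ⟨f, p, q, h1, h2, h3, h4⟩ := ha
  obtain ⟨f', p', q', h1', h2', h3', h4'⟩ := hb
  refine ⟨fun x => f x + f' x, fun e t => p e t + p' e t, fun e t => q e t + q' e t, ?_, ?_, ?_,
    ?_⟩
  · intro e t ht0 ht1
    filter_upwards [h1 e t ht0 ht1, h1' e t ht0 ht1] with h hh hh'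
    simp only [hh, hh']
    push_cast
    ring
  · intro e t ht0 ht1
    filter_upwards [h2 e t ht0 ht1, h2' e t ht0 ht1] with h hh hh'
    simp only [hh, hh']
    push_cast
    ring
  · intro e t
    rw [AddSubgroup.coe_add, Finsupp.add_apply, h3, h3']
    ring
  · intro v
    rw [AddSubgroup.coe_add, Finsupp.add_apply, h4, h4']
    have : ∀ (a b c d : ℤ), a + b + (c + d) = (a + c) + (b + d) := by intros; ring
    rw [this, ← Finset.sum_add_distrib, ← Finset.sum_add_distrib]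
    congr 1
    · apply Finset.sum_congr rfl
      intro e _
      split_ifs <;> simp
    · apply Finset.sum_congr rfl
      intro e _
      split_ifs <;> simp

theorem prin_neg {a : Γ.Div0} (ha : ∃ f : Γ.Point → ℝ, Γ.IsDivOf f (a : Γ.Div)) :
    ∃ f : Γ.Point → ℝ, Γ.IsDivOf f ((-a : Γ.Div0) : Γ.Div) := by
  obtain ⟨f, p, q, h1, h2, h3, h4⟩ := ha
  refine ⟨fun x => -f x, fun e t => -p e t, fun e t => -q e t, ?_, ?_, ?_, ?_⟩
  · intro e t ht0 ht1
    filter_upwards [h1 e t ht0 ht1] with h hh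
    simp only [hh]
    push_cast
    ring
  · intro e t ht0 ht1
    filter_upwards [h2 e t ht0 ht1] with h hh
    simp only [hh]
    push_cast
    ring
  · intro e t
    rw [AddSubgroup.coe_neg, Finsupp.neg_apply, h3]
    ring
  · intro v
    rw [AddSubgroup.coe_neg, Finsupp.neg_apply, h4, neg_add, ← Finset.sum_neg_distrib,
      ← Finset.sum_neg_distrib]
    congr 1
    · apply Finset.sum_congr rfl
      intro e _
      split_ifs <;> simp
    · apply Finset.sum_congr rfl
      intro e _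
      split_ifs <;> simp

/-- The subgroup of principal divisors. -/
def Prin : AddSubgroup Γ.Div0 where
  carrier := {D | ∃ f : Γ.Point → ℝ, Γ.IsDivOf f (D : Γ.Div)}
  zero_mem' := Γ.prin_zero
  add_mem' := Γ.prin_add
  neg_mem' := Γ.prin_neg

/-- `Pic⁰(Γ)`: the group of linear equivalence classes of divisors of degree `0`. -/
def Pic0 : Type := Γ.Div0 ⧸ Γ.Prin

noncomputable instance : AddCommGroup Γ.Pic0 :=
  QuotientAddGroup.Quotient.addCommGroup Γ.Prin

/-- The class of a divisor of degree `0`. -/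
noncomputable def cls : Γ.Div0 →+ Γ.Pic0 := QuotientAddGroup.mk' Γ.Prin

/-- The vector `η` is the sum of a coboundary `dF`, `F : V → ℝ`, and of a vector
`(z e * len e)`, `z` an integral `1`-cycle of the graph. -/
def IsPeriod (η : Γ.E → ℝ) : Prop :=
  ∃ (F : Γ.V → ℝ) (z : Γ.E → ℤ), Γ.IsBoundary z 0 ∧
    ∀ e, η e = F (Γ.tgt e) - F (Γ.src e) + z e * Γ.len e

theorem isPeriod_zero : Γ.IsPeriod 0 := ⟨fun _ => 0, fun _ => 0, isBoundary_zero, fun e => by simp⟩

theorem isPeriod_add {a b : Γ.E → ℝ} (ha : Γ.IsPeriod a) (hb : Γ.IsPeriod b) :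
    Γ.IsPeriod (a + b) := by
  obtain ⟨F, z, hz, h⟩ := ha
  obtain ⟨F', z', hz', h'⟩ := hb
  refine ⟨fun v => F v + F' v, z + z', ?_, ?_⟩
  · have := hz.add hz'
    rwa [add_zero] at this
  · intro e
    rw [Pi.add_apply, h, h', Pi.add_apply]
    push_cast
    ring

theorem isPeriod_neg {a : Γ.E → ℝ} (ha : Γ.IsPeriod a) : Γ.IsPeriod (-a) := by
  obtain ⟨F, z, hz, h⟩ := ha
  refine ⟨fun v => -F v, -z, ?_, ?_⟩
  · have := hz.neg
    rwa [neg_zero] at this
  · intro e
    rw [Pi.neg_apply, h, Pi.neg_apply]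
    push_cast
    ring

/-- The subgroup of `ℝ ^ E` generated by the coboundaries `dF`, `F : V → ℝ`, and by the vectors
`(z e * len e)`, `z` an integral `1`-cycle of the graph. -/
def periods : AddSubgroup (Γ.E → ℝ) where
  carrier := {η | Γ.IsPeriod η}
  zero_mem' := Γ.isPeriod_zero
  add_mem' := Γ.isPeriod_add
  neg_mem' := Γ.isPeriod_neg

/-- The real torus `H¹(Γ, ℝ) / H₁(Γ, ℤ) = ℝ ^ E / (dℝ ^ V + H₁(Γ, ℤ))` of dimension `g`, with its
quotient topology. -/
abbrev Torus : Type := (Γ.E → ℝ) ⧸ Γ.periods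

/-- The Abel-Jacobi map on divisors of degree `0`: `D` is the boundary of an integral chain `a`
on `Γ`, and `aj D` is the class of the vector of the integrals of `a` over the edges (it does not
depend on the choice of `a`, see `aj_eq`). -/
noncomputable def ajFun (D : Γ.Div0) : Γ.Torus :=
  QuotientAddGroup.mk (Γ.integral (Classical.choose (Γ.exists_isBoundary D D.2)) D)

variable {Γ}

lemma aj_eq {D : Γ.Div0} {s : Γ.E → ℤ} (hs : Γ.IsBoundary s (D : Γ.Div)) :
    Γ.ajFun D = QuotientAddGroup.mk (Γ.integral s D) := by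
  have h := Classical.choose_spec (Γ.exists_isBoundary D D.2)
  unfold ajFun
  rw [QuotientAddGroup.eq]
  refine ⟨fun _ => 0, s - Classical.choose (Γ.exists_isBoundary D D.2), ?_, ?_⟩
  · have := hs.sub h
    rwa [sub_self] at this
  · intro e
    simp only [integral, Pi.add_apply, Pi.neg_apply, Pi.sub_apply]
    push_cast
    ring

variable (Γ)

theorem ajFun_zero : Γ.ajFun 0 = 0 := by
  rw [aj_eq (D := 0) (s := 0) isBoundary_zero]
  have : Γ.integral 0 ((0 : Γ.Div0) : Γ.Div) = 0 := by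
    funext e
    simp [integral, momOn_zero]
  rw [this]
  rfl

theorem ajFun_add (a b : Γ.Div0) : Γ.ajFun (a + b) = Γ.ajFun a + Γ.ajFun b := by
  have ha := Classical.choose_spec (Γ.exists_isBoundary a a.2)
  have hb := Classical.choose_spec (Γ.exists_isBoundary b b.2)
  rw [aj_eq ha, aj_eq hb, aj_eq (D := a + b) (ha.add hb), ← QuotientAddGroup.mk_add,
    AddSubgroup.coe_add, integral_add]

/-- The Abel-Jacobi homomorphism on divisors of degree `0`. -/
noncomputable def ajDiv : Γ.Div0 →+ Γ.Torus where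
  toFun := Γ.ajFun
  map_zero' := Γ.ajFun_zero
  map_add' := Γ.ajFun_add

lemma prin_le_ker_ajDiv : Γ.Prin ≤ Γ.ajDiv.ker := by
  rintro D ⟨f, hf⟩
  obtain ⟨s, hs, h⟩ := exists_isBoundary_of_isDivOf hf
  rw [AddMonoidHom.mem_ker]
  change Γ.ajFun D = 0
  rw [aj_eq hs, QuotientAddGroup.eq_zero_iff]
  refine ⟨fun v => -f (Γ.vert v), 0, isBoundary_zero, ?_⟩
  intro e
  rw [h e]
  simp
  ring

/-- The Abel-Jacobi map `Pic⁰(Γ) → ℝ ^ E / (dℝ ^ V + H₁(Γ, ℤ))`. -/
noncomputable def aj : Γ.Pic0 →+ Γ.Torus :=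
  QuotientAddGroup.lift Γ.Prin Γ.ajDiv Γ.prin_le_ker_ajDiv

lemma aj_cls (D : Γ.Div0) : Γ.aj (Γ.cls D) = Γ.ajFun D := rfl

/-- The topology of `Pic⁰(Γ)` as a real torus: the one carried over by the Abel-Jacobi map, which
is an isomorphism of groups from `Pic⁰(Γ)` onto the real torus `ℝ ^ E / (dℝ ^ V + H₁(Γ, ℤ))`
(`aj_injective`, `aj_surjective`). -/
noncomputable instance : TopologicalSpace Γ.Pic0 := TopologicalSpace.induced Γ.aj inferInstance

/-- The Abel-Jacobi map is injective. -/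
theorem aj_injective : Function.Injective Γ.aj := by
  rw [injective_iff_map_eq_zero]
  intro P hP
  obtain ⟨D, rfl⟩ : ∃ D, Γ.cls D = P := QuotientAddGroup.mk'_surjective Γ.Prin P
  obtain ⟨s, hs⟩ := Γ.exists_isBoundary D D.2
  rw [aj_cls, aj_eq hs, QuotientAddGroup.eq_zero_iff] at hP
  obtain ⟨F, z, hz, h⟩ := hP
  have hs' := hs.sub hz
  rw [sub_zero] at hs'
  obtain ⟨f, hf, -⟩ := exists_isDivOf (F := fun v => -F v) hs' (by
    intro e
    have := h e
    simp only [integral, Pi.sub_apply] at this ⊢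
    push_cast
    linarith)
  exact (QuotientAddGroup.eq_zero_iff D).2 ⟨f, hf⟩

/-- The Baker-Norine ranks and a Young diagram define `W^λ(Γ, w)`: the set of classes of divisors
`D` of degree `0` with `r (D + (g - x + y - 1) w) ≥ y - 1` for every box `(x, y)` of `λ`. The cell
`c = (c.1, c.2)` of a `YoungDiagram` of Mathlib (row `c.1`, column `c.2`, counted from `0`) is the
box `(x, y) = (c.2 + 1, c.1 + 1)`, so that `g - x + y - 1 = g - c.2 + c.1 - 1`. -/
def W (w : Γ.Point) (lam : YoungDiagram) : Set Γ.Pic0 :=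
  {P | ∃ D : Γ.Div0, Γ.cls D = P ∧ ∀ c ∈ lam.cells,
    (c.1 : ℤ) ≤ Γ.rank ((D : Γ.Div) + Finsupp.single w (Γ.genus - c.2 + c.1 - 1))}

end

end MetricGraph

/-! ### Covering dimension and local dimension -/

/-- The (Lebesgue) covering dimension of the space `X` is at most `n`: every finite open cover has a
finite open refinement such that no point lies in more than `n + 1` of its members. -/
def CovDimLE (X : Type) [TopologicalSpace X] (n : ℕ) : Prop :=
  ∀ (ι : Type) [Finite ι] (U : ι → Set X), (∀ i, IsOpen (U i)) → (⋃ i, U i) = Set.univ →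
    ∃ V : Set (Set X), V.Finite ∧ (∀ A ∈ V, IsOpen A) ∧ ⋃₀ V = Set.univ ∧
      (∀ A ∈ V, ∃ i, A ⊆ U i) ∧ ∀ x : X, {A ∈ V | x ∈ A}.ncard ≤ n + 1

/-- The nonempty space `X` has covering dimension `n`. -/
def HasCovDim (X : Type) [TopologicalSpace X] (n : ℕ) : Prop :=
  Nonempty X ∧ CovDimLE X n ∧ ∀ m < n, ¬ CovDimLE X m

/-- The local dimension of the subset `S` of the space `X` at its point `x` is `n`: the dimension
of `S ∩ U` is `n` for all sufficiently small open neighbourhoods `U` of `x`. -/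
def HasLocalDim {X : Type} [TopologicalSpace X] (S : Set X) (x : X) (n : ℕ) : Prop :=
  ∃ U₀ : Set X, IsOpen U₀ ∧ x ∈ U₀ ∧
    ∀ U : Set X, IsOpen U → x ∈ U → U ⊆ U₀ → HasCovDim (S ∩ U : Set X) n

/-- An isolated point of `S` has local dimension `0`. -/
theorem hasLocalDim_zero_of_isolated {X : Type} [TopologicalSpace X] {S : Set X} {x : X}
    (hx : x ∈ S) {U₀ : Set X} (hU : IsOpen U₀) (hxU : x ∈ U₀) (h : ∀ y ∈ S ∩ U₀, y = x) :
    HasLocalDim S x 0 := by
  refine ⟨U₀, hU, hxU, fun U hUo hxU' hUU => ⟨⟨⟨x, hx, hxU'⟩⟩, ?_, fun m hm => absurd hm (by omega)⟩⟩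
  intro ι _ V hVo hV
  have hsub : ∀ y : (S ∩ U : Set X), y = ⟨x, hx, hxU'⟩ := fun y =>
    Subtype.ext (h y.1 ⟨y.2.1, hUU y.2.2⟩)
  refine ⟨{Set.univ}, Set.finite_singleton _, ?_, ?_, ?_, ?_⟩
  · rintro A rfl
    exact isOpen_univ
  · simp
  · rintro A rfl
    have : (⟨x, hx, hxU'⟩ : (S ∩ U : Set X)) ∈ ⋃ i, V i := by rw [hV]; trivial
    obtain ⟨i, hi⟩ := Set.mem_iUnion.1 this
    exact ⟨i, fun y _ => by rw [hsub y]; exact hi⟩
  · intro y
    have : {A ∈ ({Set.univ} : Set (Set (S ∩ U : Set X))) | y ∈ A} ⊆ {Set.univ} := fun A hA => hA.1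
    calc _ ≤ ({Set.univ} : Set (Set (S ∩ U : Set X))).ncard :=
          Set.ncard_le_ncard this (Set.finite_singleton _)
      _ = 0 + 1 := by simp

end Pool.Agent.TropBN
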